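import Mathlib

/-!
# Two large subsets of the cube are close

`two_sets`: if all points of `A` and `B` are at distance at least `r`, then
`|A| |B| exp (t r) ≤ (2 + exp t + exp (-t)) ^ N`.
-/

namespace Pool.Agent.Lib.BL

open Finset

/-- The section of a subset of the cube. -/
def sec {N : ℕ} (b : Bool) (A : Finset (Fin (N + 1) → Bool)) : Finset (Fin N → Bool) :=
  univ.filter fun x => Fin.cons b x ∈ A

theorem card_sec {N : ℕ} (A : Finset (Fin (N + 1) → Bool)) :
    A.card = (sec false A).card + (sec true A).card := by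
  have h : A = (sec false A).map ⟨fun x => Fin.cons false x, fun x y h => by
      simpa using h⟩ ∪ (sec true A).map ⟨fun x => Fin.cons true x, fun x y h => by
      simpa using h⟩ := by
    ext x
    simp only [sec, Finset.mem_union, Finset.mem_map, Finset.mem_filter, Finset.mem_univ, true_and,
      Function.Embedding.coeFn_mk]
    constructor
    · intro hx
      have h1 : Fin.cons (x 0) (Fin.tail x) = x := Fin.cons_self_tail x
      cases h2 : x 0
      · left
        refine ⟨Fin.tail x, ?_, ?_⟩ <;> rw [← h2, h1]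
        exact hx
      · right
        refine ⟨Fin.tail x, ?_, ?_⟩ <;> rw [← h2, h1]
        exact hx
    · rintro (⟨y, hy, rfl⟩ | ⟨y, hy, rfl⟩) <;> exact hy
  conv_lhs => rw [h]
  rw [Finset.card_union_of_disjoint, Finset.card_map, Finset.card_map]
  rw [Finset.disjoint_left]
  intro x hx hx'
  simp only [Finset.mem_map, Function.Embedding.coeFn_mk] at hx hx'
  obtain ⟨y, -, rfl⟩ := hx
  obtain ⟨z, -, hz⟩ := hx'
  have := congrFun hz 0
  simp at this

theorem dist_cons {N : ℕ} (b c : Bool) (x y : Fin N → Bool) :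
    hammingDist (Fin.cons b x : Fin (N + 1) → Bool) (Fin.cons c y) =
      (if b = c then 0 else 1) + hammingDist x y := by
  unfold hammingDist
  rw [Fin.univ_succ, Finset.filter_cons]
  simp only [Fin.cons_zero, Finset.filter_map, Finset.card_map]
  by_cases h : b = c
  · simp [h, Function.comp_def]
  · simp [h, Function.comp_def, add_comm]

theorem mul_aux {L u v r s p q : ℝ} (hp0 : 0 ≤ p) (hq0 : 0 ≤ q) (hr0 : 0 ≤ r) (hs0 : 0 ≤ s)
    (hpq : p * q = r * s) (hp : p ≤ L) (hq : q ≤ L) (hr : r ≤ L * u) (hs : s ≤ L * u)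
    (hu : 1 ≤ u) (huv : u * v = 1) : p + q + (r + s) ≤ L * (2 + u + v) := by
  have hL : 0 ≤ L := hp0.trans hp
  have hv : 0 ≤ v := by
    by_contra h
    push Not at h
    nlinarith
  have h1 : r * s ≤ L * L := by
    rw [← hpq]
    exact mul_le_mul hp hq hq0 hL
  have h2 : r + s ≤ L * u + L * v := by
    rcases le_total r (L * v) with h | h
    · linarith
    · rcases eq_or_lt_of_le hr0 with h0 | h0
      · rw [← h0] at h ⊢
        nlinarith [mul_nonneg hL hv]
      · have h3 : (L * u - r) * (r - L * v) ≥ 0 := mul_nonneg (by linarith) (by linarith)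
        have h4 : r * (L * u + L * v) ≥ r * r + L * L := by
          have h5 : L * u * (L * v) = L * L := by
            calc L * u * (L * v) = L * L * (u * v) := by ring
              _ = L * L := by rw [huv, mul_one]
          nlinarith
        have h5 : r * (r + s) ≤ r * (L * u + L * v) := by nlinarith
        exact le_of_mul_le_mul_left h5 h0
  nlinarith

theorem two_sets : ∀ (N r : ℕ) (A B : Finset (Fin N → Bool)),
    (∀ a ∈ A, ∀ b ∈ B, r ≤ hammingDist a b) → ∀ t : ℝ, 0 ≤ t →
    (A.card : ℝ) * B.card * Real.exp (t * r) ≤ (2 + Real.exp t + Real.exp (-t)) ^ N := by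
  intro N
  induction N with
  | zero =>
    intro r A B h t ht
    rcases A.eq_empty_or_nonempty with rfl | ⟨a, ha⟩
    · simp
    rcases B.eq_empty_or_nonempty with rfl | ⟨b, hb⟩
    · simp
    have h1 := h a ha b hb
    have h2 : hammingDist a b = 0 := by
      rw [hammingDist_eq_zero]
      exact Subsingleton.elim _ _
    have h3 : r = 0 := by omega
    have hA : A.card ≤ 1 := by
      rw [Finset.card_le_one]
      intro _ _ _ _
      exact Subsingleton.elim _ _
    have hB : B.card ≤ 1 := by
      rw [Finset.card_le_one]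
      intro _ _ _ _
      exact Subsingleton.elim _ _
    subst h3
    simp only [Nat.cast_zero, mul_zero, Real.exp_zero, mul_one, pow_zero]
    have hA' : (A.card : ℝ) ≤ 1 := by exact_mod_cast hA
    have hB' : (B.card : ℝ) ≤ 1 := by exact_mod_cast hB
    nlinarith [Nat.cast_nonneg (α := ℝ) A.card, Nat.cast_nonneg (α := ℝ) B.card]
  | succ N ih =>
    intro r A B h t ht
    have hsec : ∀ b c : Bool, ∀ x ∈ sec b A, ∀ y ∈ sec c B,
        r ≤ (if b = c then 0 else 1) + hammingDist x y := by
      intro b c x hx y hy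
      rw [← dist_cons]
      exact h _ (Finset.mem_filter.mp hx).2 _ (Finset.mem_filter.mp hy).2
    have hu : 1 ≤ Real.exp t := Real.one_le_exp ht
    have huv : Real.exp t * Real.exp (-t) = 1 := by
      rw [← Real.exp_add, add_neg_cancel, Real.exp_zero]
    set K : ℝ := (2 + Real.exp t + Real.exp (-t)) ^ N with hK
    have h00 := ih r (sec false A) (sec false B)
      (fun x hx y hy => by simpa using hsec false false x hx y hy) t ht
    have h11 := ih r (sec true A) (sec true B)
      (fun x hx y hy => by simpa using hsec true true x hx y hy) t ht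
    have h01 := ih (r - 1) (sec false A) (sec true B)
      (fun x hx y hy => by have := hsec false true x hx y hy; simp at this; omega) t ht
    have h10 := ih (r - 1) (sec true A) (sec false B)
      (fun x hx y hy => by have := hsec true false x hx y hy; simp at this; omega) t ht
    have hcast : Real.exp (t * r) ≤ Real.exp (t * ((r - 1 : ℕ) : ℝ)) * Real.exp t := by
      rw [← Real.exp_add]
      apply Real.exp_le_exp.mpr
      have : (r : ℝ) ≤ ((r - 1 : ℕ) : ℝ) + 1 := by
        rcases Nat.eq_zero_or_pos r with h0 | h0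
        · subst h0
          simp
        · rw [Nat.cast_sub h0]
          simp
      nlinarith
    have hE : 0 < Real.exp (t * r) := Real.exp_pos _
    set E := Real.exp (t * r) with hEdef
    set a0 := ((sec false A).card : ℝ)
    set a1 := ((sec true A).card : ℝ)
    set b0 := ((sec false B).card : ℝ)
    set b1 := ((sec true B).card : ℝ)
    have ha0 : 0 ≤ a0 := Nat.cast_nonneg _
    have ha1 : 0 ≤ a1 := Nat.cast_nonneg _
    have hb0 : 0 ≤ b0 := Nat.cast_nonneg _
    have hb1 : 0 ≤ b1 := Nat.cast_nonneg _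
    have h01' : a0 * b1 * E ≤ K * Real.exp t := by
      calc a0 * b1 * E ≤ a0 * b1 * (Real.exp (t * ((r - 1 : ℕ) : ℝ)) * Real.exp t) := by
            gcongr
        _ = (a0 * b1 * Real.exp (t * ((r - 1 : ℕ) : ℝ))) * Real.exp t := by ring
        _ ≤ K * Real.exp t := by gcongr
    have h10' : a1 * b0 * E ≤ K * Real.exp t := by
      calc a1 * b0 * E ≤ a1 * b0 * (Real.exp (t * ((r - 1 : ℕ) : ℝ)) * Real.exp t) := by
            gcongr
        _ = (a1 * b0 * Real.exp (t * ((r - 1 : ℕ) : ℝ))) * Real.exp t := by ring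
        _ ≤ K * Real.exp t := by gcongr
    have := mul_aux (L := K) (u := Real.exp t) (v := Real.exp (-t)) (p := a0 * b0 * E)
      (q := a1 * b1 * E) (r := a0 * b1 * E) (s := a1 * b0 * E) (by positivity) (by positivity)
      (by positivity) (by positivity) (by ring) h00 h11 h01' h10' hu huv
    rw [card_sec A, card_sec B]
    push_cast
    calc (a0 + a1) * (b0 + b1) * E = a0 * b0 * E + a1 * b1 * E + (a0 * b1 * E + a1 * b0 * E) := by
          ring
      _ ≤ K * (2 + Real.exp t + Real.exp (-t)) := this
      _ = (2 + Real.exp t + Real.exp (-t)) ^ (N + 1) := by rw [pow_succ]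

theorem cosh_bound (t : ℝ) : 2 + Real.exp t + Real.exp (-t) ≤ 4 * Real.exp (t ^ 2 / 4) := by
  have h1 := Real.cosh_le_exp_half_sq (t / 2)
  have h2 : 2 + Real.exp t + Real.exp (-t) = 4 * Real.cosh (t / 2) ^ 2 := by
    rw [Real.cosh_eq]
    have e1 : Real.exp t = Real.exp (t / 2) * Real.exp (t / 2) := by
      rw [← Real.exp_add]; ring_nf
    have e2 : Real.exp (-t) = Real.exp (-(t / 2)) * Real.exp (-(t / 2)) := by
      rw [← Real.exp_add]; ring_nf
    have e3 : Real.exp (t / 2) * Real.exp (-(t / 2)) = 1 := by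
      rw [← Real.exp_add, add_neg_cancel, Real.exp_zero]
    rw [e1, e2]
    linear_combination -2 * e3
  rw [h2]
  have h3 : Real.exp (t ^ 2 / 4) = Real.exp ((t / 2) ^ 2 / 2) ^ 2 := by
    rw [← Real.exp_nat_mul]
    congr 1
    push_cast
    ring
  rw [h3]
  have h4 : 0 < Real.cosh (t / 2) := Real.cosh_pos _
  gcongr

/-- If two subsets of the cube have at least `2^N / M` elements, then some point of the first is at
distance at most `√(2 N log M)` from some point of the second. -/
theorem exists_close {N : ℕ} {M : ℝ} (hM : 1 ≤ M) {A B : Finset (Fin N → Bool)}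
    (hA : (2 : ℝ) ^ N ≤ A.card * M) (hB : (2 : ℝ) ^ N ≤ B.card * M) :
    ∃ a ∈ A, ∃ b ∈ B, (hammingDist a b : ℝ) ≤ Real.sqrt (2 * N * Real.log M) := by
  by_contra hcon
  push Not at hcon
  have hA0 : A.Nonempty := by
    rw [← Finset.card_pos]
    by_contra h
    have : A.card = 0 := by omega
    rw [this] at hA
    have : (0 : ℝ) < 2 ^ N := by positivity
    norm_num at hA
    linarith
  have hB0 : B.Nonempty := by
    rw [← Finset.card_pos]
    by_contra h
    have : B.card = 0 := by omega
    rw [this] at hB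
    have : (0 : ℝ) < 2 ^ N := by positivity
    norm_num at hB
    linarith
  -- the minimal distance
  obtain ⟨p, hp, hmin⟩ := Finset.exists_min_image (A ×ˢ B) (fun p => hammingDist p.1 p.2)
    (hA0.product hB0)
  set r := hammingDist p.1 p.2 with hr
  have hr1 : Real.sqrt (2 * N * Real.log M) < r :=
    hcon p.1 (Finset.mem_product.mp hp).1 p.2 (Finset.mem_product.mp hp).2
  have hlogM : 0 ≤ Real.log M := Real.log_nonneg hM
  have hr2 : 2 * N * Real.log M < (r : ℝ) ^ 2 := by
    have h1 := Real.sq_sqrt (show 0 ≤ 2 * N * Real.log M by positivity)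
    have h2 := Real.sqrt_nonneg (2 * N * Real.log M)
    nlinarith
  have hNpos : 0 < N := by
    rcases Nat.eq_zero_or_pos N with h | h
    · subst h
      have : r = 0 := by
        rw [hr, hammingDist_eq_zero]
        exact Subsingleton.elim _ _
      rw [this] at hr2
      norm_num at hr2
    · exact h
  have hN : (0 : ℝ) < N := by exact_mod_cast hNpos
  set t : ℝ := 2 * r / N with ht
  have ht0 : 0 ≤ t := by positivity
  have h1 := two_sets N r A B (fun a ha b hb => hmin (a, b) (Finset.mem_product.mpr ⟨ha, hb⟩)) t ht0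
  have h2 : (2 + Real.exp t + Real.exp (-t)) ^ N ≤ (4 * Real.exp (t ^ 2 / 4)) ^ N :=
    pow_le_pow_left₀ (by positivity) (cosh_bound t) N
  have h3 : (4 * Real.exp (t ^ 2 / 4)) ^ N = 4 ^ N * Real.exp (r ^ 2 / N) := by
    rw [mul_pow, ← Real.exp_nat_mul]
    congr 2
    rw [ht]
    field_simp
    ring
  have h4 : Real.exp (t * r) = Real.exp (r ^ 2 / N) * Real.exp (r ^ 2 / N) := by
    rw [← Real.exp_add]
    congr 1
    rw [ht]
    ring
  rw [h4] at h1
  rw [h3] at h2
  have h5 : (A.card : ℝ) * B.card * Real.exp (r ^ 2 / N) ≤ 4 ^ N := by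
    have h6 : (A.card : ℝ) * B.card * Real.exp (r ^ 2 / N) * Real.exp (r ^ 2 / N) ≤
        4 ^ N * Real.exp (r ^ 2 / N) := by
      calc _ = (A.card : ℝ) * B.card * (Real.exp (r ^ 2 / N) * Real.exp (r ^ 2 / N)) := by ring
        _ ≤ _ := h1.trans h2
    exact le_of_mul_le_mul_right h6 (Real.exp_pos _)
  have h6 : (4 : ℝ) ^ N ≤ (A.card * B.card) * M ^ 2 := by
    have h7 : (4 : ℝ) ^ N = 2 ^ N * 2 ^ N := by
      rw [← mul_pow]
      norm_num
    rw [h7]
    calc (2 : ℝ) ^ N * 2 ^ N ≤ (A.card * M) * (B.card * M) := by gcongr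
      _ = _ := by ring
  have hAB : (0 : ℝ) < A.card * B.card := by
    have := Finset.card_pos.mpr hA0
    have := Finset.card_pos.mpr hB0
    positivity
  have h7 : Real.exp (r ^ 2 / N) ≤ M ^ 2 := by
    have : (A.card : ℝ) * B.card * Real.exp (r ^ 2 / N) ≤ A.card * B.card * M ^ 2 := h5.trans h6
    exact le_of_mul_le_mul_left this hAB
  have h8 : (r : ℝ) ^ 2 / N ≤ 2 * Real.log M := by
    have h9 := Real.log_le_log (Real.exp_pos _) h7
    rw [Real.log_exp, Real.log_pow] at h9
    exact_mod_cast h9
  rw [div_le_iff₀ hN] at h8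
  nlinarith

end Pool.Agent.Lib.BL
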