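import Pool.Agent.Lib.BL.LO

/-!
# Rounding the weights of a halfspace
-/

namespace Pool.Agent.Lib.BL

open Finset
open H99.Bracket (sg)

/-- A threshold with few larger weights. -/
theorem exists_threshold {N : ℕ} (b : Fin N → ℝ) {k : ℕ} (hk0 : 0 < k) (hk : k ≤ N) :
    ∃ i₀ : Fin N, k ≤ (univ.filter fun i => b i₀ ≤ b i).card ∧
      (univ.filter fun i => b i₀ < b i).card < k := by
  classical
  set S := univ.filter fun i₀ : Fin N => k ≤ (univ.filter fun i => b i₀ ≤ b i).card with hS
  have hN : 0 < N := by omega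
  have : Nonempty (Fin N) := ⟨⟨0, hN⟩⟩
  have hne : S.Nonempty := by
    obtain ⟨m, -, hm⟩ := Finset.exists_min_image (univ : Finset (Fin N)) b Finset.univ_nonempty
    refine ⟨m, ?_⟩
    rw [hS, Finset.mem_filter]
    refine ⟨Finset.mem_univ _, ?_⟩
    have : (univ.filter fun i => b m ≤ b i) = univ := by
      apply Finset.filter_true_of_mem
      intro i _
      exact hm i (Finset.mem_univ _)
    rw [this, Finset.card_univ, Fintype.card_fin]
    exact hk
  obtain ⟨i₀, hi₀, hmax⟩ := Finset.exists_max_image S b hne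
  refine ⟨i₀, (Finset.mem_filter.mp hi₀).2, ?_⟩
  by_contra hcon
  push Not at hcon
  have hne2 : (univ.filter fun i => b i₀ < b i).Nonempty := by
    rw [← Finset.card_pos]
    omega
  obtain ⟨m, hm, hmin⟩ := Finset.exists_min_image _ b hne2
  rw [Finset.mem_filter] at hm
  have hmS : m ∈ S := by
    rw [hS, Finset.mem_filter]
    refine ⟨Finset.mem_univ _, hcon.trans (Finset.card_le_card ?_)⟩
    intro i hi
    rw [Finset.mem_filter]
    exact ⟨Finset.mem_univ _, hmin i hi⟩
  have := hmax m hmS
  linarith [hm.2]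

/-- The harmonic sum. -/
theorem sum_inv_rank {α : Type*} [DecidableEq α] (f : α → ℝ) : ∀ (k : ℕ) (s : Finset α),
    s.card = k → ∑ i ∈ s, (1 : ℝ) / ((s.filter fun j => f i ≤ f j).card : ℝ) ≤
      ∑ r ∈ range k, (1 : ℝ) / ((r + 1 : ℕ) : ℝ) := by
  intro k
  induction k with
  | zero =>
    intro s hs
    rw [Finset.card_eq_zero] at hs
    subst hs
    simp
  | succ k ih =>
    intro s hs
    have hne : s.Nonempty := by
      rw [← Finset.card_pos]
      omega
    obtain ⟨m, hm, hmin⟩ := Finset.exists_min_image s f hne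
    rw [← Finset.add_sum_erase s _ hm, Finset.sum_range_succ, add_comm]
    apply add_le_add
    · refine le_trans (Finset.sum_le_sum fun i hi => ?_)
        (ih (s.erase m) (by rw [Finset.card_erase_of_mem hm]; omega))
      have hpos : 0 < ((s.erase m).filter fun j => f i ≤ f j).card := by
        rw [Finset.card_pos]
        exact ⟨i, Finset.mem_filter.mpr ⟨hi, le_refl _⟩⟩
      apply one_div_le_one_div_of_le
      · exact_mod_cast hpos
      · have : ((s.erase m).filter fun j => f i ≤ f j).card ≤
            (s.filter fun j => f i ≤ f j).card :=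
          Finset.card_le_card (Finset.filter_subset_filter _ (Finset.erase_subset _ _))
        exact_mod_cast this
    · have : (s.filter fun j => f m ≤ f j) = s := by
        apply Finset.filter_true_of_mem
        exact hmin
      rw [this, hs]

theorem harmonic_real (k : ℕ) : ∑ r ∈ range k, (1 : ℝ) / ((r + 1 : ℕ) : ℝ) ≤ 1 + Real.log k := by
  refine le_trans (le_of_eq ?_) (harmonic_le_one_add_log k)
  unfold harmonic
  push_cast
  exact Finset.sum_congr rfl fun r _ => one_div _

/-- A scale which carries a large part of the sum of the squares. -/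
theorem exists_scale {N : ℕ} (b : Fin N → ℝ) (hb : ∀ i, 0 ≤ b i) {w : ℝ} {i₀ : Fin N}
    (hi₀ : b i₀ = w) (hw : 0 < w) :
    ∃ δ : ℝ, 0 < δ ∧ δ ≤ w ∧ ∑ i ∈ univ.filter (fun i => b i ≤ w), b i ^ 2 ≤
      (1 + Real.log N) * (δ ^ 2 * ((univ.filter fun i => δ ≤ b i).card : ℝ)) := by
  classical
  by_contra hcon
  push Not at hcon
  set σ := ∑ i ∈ univ.filter (fun i => b i ≤ w), b i ^ 2 with hσ
  have hNpos : 0 < N := i₀.pos
  have hH : 0 < 1 + Real.log N := by
    have : (1 : ℝ) ≤ N := by exact_mod_cast hNpos
    have := Real.log_nonneg this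
    linarith
  have hterm : ∀ i ∈ univ.filter (fun i => b i ≤ w), b i ^ 2 ≤
      σ / (1 + Real.log N) * (1 / ((univ.filter fun j => b i ≤ b j).card : ℝ)) := by
    intro i hi
    rw [Finset.mem_filter] at hi
    have hσ0 : 0 ≤ σ := Finset.sum_nonneg fun i _ => sq_nonneg _
    rcases eq_or_lt_of_le (hb i) with h0 | h0
    · have h9 : b i ^ 2 = 0 := by
        rw [← h0]
        norm_num
      rw [h9]
      positivity
    · have h1 := hcon (b i) h0 hi.2
      have hc : (0 : ℝ) < ((univ.filter fun j => b i ≤ b j).card : ℝ) := by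
        have : 0 < (univ.filter fun j => b i ≤ b j).card := by
          rw [Finset.card_pos]
          exact ⟨i, Finset.mem_filter.mpr ⟨Finset.mem_univ _, le_refl _⟩⟩
        exact_mod_cast this
      rw [mul_one_div, le_div_iff₀ hc, le_div_iff₀ hH]
      linarith
  have hlt : σ < σ := by
    have hstrict : σ < σ / (1 + Real.log N) *
        ∑ i ∈ univ.filter (fun i => b i ≤ w), (1 / ((univ.filter fun j => b i ≤ b j).card : ℝ)) := by
      rw [Finset.mul_sum]
      apply Finset.sum_lt_sum hterm
      refine ⟨i₀, Finset.mem_filter.mpr ⟨Finset.mem_univ _, hi₀.le⟩, ?_⟩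
      have h1 := hcon w hw le_rfl
      have hc : (0 : ℝ) < ((univ.filter fun j => b i₀ ≤ b j).card : ℝ) := by
        have : 0 < (univ.filter fun j => b i₀ ≤ b j).card := by
          rw [Finset.card_pos]
          exact ⟨i₀, Finset.mem_filter.mpr ⟨Finset.mem_univ _, le_refl _⟩⟩
        exact_mod_cast this
      rw [mul_one_div, lt_div_iff₀ hc, lt_div_iff₀ hH, hi₀]
      linarith
    have hσ0 : 0 ≤ σ := Finset.sum_nonneg fun i _ => sq_nonneg _
    have hsum : ∑ i ∈ univ.filter (fun i => b i ≤ w),
        (1 / ((univ.filter fun j => b i ≤ b j).card : ℝ)) ≤ 1 + Real.log N := by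
      calc _ ≤ ∑ i : Fin N, (1 / ((univ.filter fun j => b i ≤ b j).card : ℝ)) :=
            Finset.sum_le_sum_of_subset_of_nonneg (Finset.filter_subset _ _)
              fun i _ _ => by positivity
        _ ≤ _ := (sum_inv_rank b N univ (by simp)).trans (harmonic_real N)
    calc σ < _ := hstrict
      _ ≤ σ / (1 + Real.log N) * (1 + Real.log N) := by gcongr
      _ = σ := by field_simp
  exact lt_irrefl _ hlt

/-- A small perturbation avoids finitely many hyperplanes. -/
theorem exists_perturb {ι : Type*} [Fintype ι] [DecidableEq ι] (w : ι → ℝ)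
    (Z : Finset (ι → ℝ)) : ∀ η : ℝ, 0 < η → (∀ z ∈ Z, z ≠ 0) →
    ∃ p : ι → ℝ, (∀ c, 0 ≤ p c) ∧ (∀ c, p c ≤ η) ∧ ∀ z ∈ Z, ∑ c, (w c + p c) * z c ≠ 0 := by
  classical
  induction Z using Finset.induction_on with
  | empty =>
    intro η hη _
    exact ⟨fun _ => 0, fun _ => le_refl _, fun _ => hη.le, by simp⟩
  | insert z₀ Z _ ih =>
    intro η hη hZ
    obtain ⟨p, h1, h2, h3⟩ := ih (η / 2) (by positivity) fun z hz => hZ z (by simp [hz])
    by_cases h0 : ∑ c, (w c + p c) * z₀ c ≠ 0
    · refine ⟨p, h1, fun c => by linarith [h2 c], fun z hz => ?_⟩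
      rcases Finset.mem_insert.mp hz with rfl | hz
      · exact h0
      · exact h3 z hz
    · push Not at h0
      obtain ⟨c₀, hc₀⟩ : ∃ c, z₀ c ≠ 0 := by
        by_contra hcon
        push Not at hcon
        exact hZ z₀ (by simp) (funext hcon)
      have hev : ∀ᶠ s : ℝ in nhdsWithin 0 (Set.Ioi 0), ∀ z ∈ Z,
          ∑ c, (w c + p c) * z c + s * z c₀ ≠ 0 := by
        rw [Filter.eventually_all_finset]
        intro z hz
        have hcont : Continuous fun s : ℝ => ∑ c, (w c + p c) * z c + s * z c₀ := by fun_prop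
        have h4 : ∀ᶠ s : ℝ in nhds 0, ∑ c, (w c + p c) * z c + s * z c₀ ≠ 0 := by
          apply hcont.continuousAt.eventually_ne
          simpa using h3 z hz
        exact h4.filter_mono nhdsWithin_le_nhds
      have hev2 : ∀ᶠ s : ℝ in nhdsWithin 0 (Set.Ioi 0), s < η / 2 := by
        have : ∀ᶠ s : ℝ in nhds 0, s < η / 2 := gt_mem_nhds (by positivity)
        exact this.filter_mono nhdsWithin_le_nhds
      have hev3 : ∀ᶠ s : ℝ in nhdsWithin 0 (Set.Ioi 0), 0 < s := self_mem_nhdsWithin
      obtain ⟨s, hs1, hs2, hs3⟩ := (hev.and (hev2.and hev3)).exists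
      have hsum : ∀ z : ι → ℝ, ∑ c, (w c + Function.update p c₀ (p c₀ + s) c) * z c =
          ∑ c, (w c + p c) * z c + s * z c₀ := by
        intro z
        rw [← Finset.add_sum_erase univ _ (Finset.mem_univ c₀),
          ← Finset.add_sum_erase univ (fun c => (w c + p c) * z c) (Finset.mem_univ c₀)]
        have : ∑ c ∈ univ.erase c₀, (w c + Function.update p c₀ (p c₀ + s) c) * z c =
            ∑ c ∈ univ.erase c₀, (w c + p c) * z c := by
          refine Finset.sum_congr rfl fun c hc => ?_
          rw [Function.update_of_ne (Finset.mem_erase.mp hc).1]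
        rw [this, Function.update_self]
        ring
      refine ⟨Function.update p c₀ (p c₀ + s), fun c => ?_, fun c => ?_, fun z hz => ?_⟩
      · by_cases hc : c = c₀
        · subst hc
          rw [Function.update_self]
          have := h1 c
          linarith
        · rw [Function.update_of_ne hc]
          exact h1 c
      · by_cases hc : c = c₀
        · subst hc
          rw [Function.update_self]
          have := h2 c
          linarith
        · rw [Function.update_of_ne hc]
          have := h2 c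
          linarith
      · rw [hsum]
        rcases Finset.mem_insert.mp hz with rfl | hz
        · rw [h0, zero_add]
          exact mul_ne_zero hs3.ne' hc₀
        · exact hs1 z hz

/-- The classes of the rounding. -/
theorem exists_round {n : ℕ} (b : Fin n → ℝ) (hb : ∀ i, 0 ≤ b i) {w : ℝ} (hw : 0 < w) {N : ℝ}
    (hN : 1 ≤ N) {ε : ℝ} (hε : 0 < ε) (hε1 : ε ≤ 1) {J : ℕ} (hJ : 2 * Real.log N / ε ≤ J) :
    ∃ (cl : Fin n → Fin n ⊕ Fin (J + 2)) (ω : Fin n ⊕ Fin (J + 2) → ℝ), (∀ c, 0 ≤ ω c) ∧
      (∀ i, w < b i → cl i = Sum.inl i ∧ ω (cl i) = b i) ∧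
      (∀ i, b i ≤ w → ∃ j, cl i = Sum.inr j) ∧
      (∀ i, b i ≤ w → |ω (cl i) - b i| ≤ ε * b i + w / N) := by
  classical
  have hN0 : 0 < N := by linarith
  set q : ℝ := 1 / (1 + ε) with hq
  have hq0 : 0 < q := by positivity
  have hq1 : q < 1 := by
    rw [hq, div_lt_one (by positivity)]
    linarith
  have hlogN : 0 ≤ Real.log N := Real.log_nonneg hN
  -- the index of a weight in the tail
  have hidx : ∀ i, w / N < b i → b i ≤ w → ∃ j : ℕ, j ≤ J ∧ b i ≤ w * q ^ j ∧
      w * q ^ j ≤ b i + ε * b i := by
    intro i h1 h2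
    have hbi : 0 < b i := lt_trans (by positivity) h1
    obtain ⟨j, hj1, hj2⟩ := exists_nat_pow_near_of_lt_one (x := b i / w) (y := q)
      (by positivity) (by rw [div_le_one hw]; exact h2) hq0 hq1
    rw [div_le_iff₀ hw] at hj2
    rw [lt_div_iff₀ hw] at hj1
    refine ⟨j, ?_, by linarith, ?_⟩
    · -- the bound on the index
      have h3 : 1 / N < q ^ j := by
        have h4 : w / N < q ^ j * w := h1.trans_le hj2
        have h5 : w * (1 / N) < w * q ^ j := by
          rw [mul_one_div]
          linarith
        exact lt_of_mul_lt_mul_left h5 hw.le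
      have h4 : (1 + ε) ^ j < N := by
        rw [hq, one_div, one_div, inv_pow, inv_lt_inv₀ hN0 (by positivity)] at h3
        exact h3
      have h5 : (j : ℝ) * Real.log (1 + ε) < Real.log N := by
        rw [← Real.log_pow]
        exact Real.log_lt_log (by positivity) h4
      have h6 : ε / 2 ≤ Real.log (1 + ε) := by
        have h7 := Real.one_sub_inv_le_log_of_pos (show 0 < 1 + ε by positivity)
        have h8 : ε / 2 ≤ 1 - (1 + ε)⁻¹ := by
          have h9 : 1 - (1 + ε)⁻¹ = ε / (1 + ε) := by
            field_simp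
            ring
          rw [h9]
          apply div_le_div_of_nonneg_left hε.le (by positivity)
          linarith
        linarith
      have h7 : (j : ℝ) ≤ J := by
        refine le_trans ?_ hJ
        rw [le_div_iff₀ hε]
        have h8 : (j : ℝ) * (ε / 2) ≤ j * Real.log (1 + ε) := by gcongr
        linarith
      exact_mod_cast h7
    · have h3 : q ^ j = q ^ (j + 1) * (1 + ε) := by
        rw [pow_succ, hq]
        field_simp
      calc w * q ^ j = (q ^ (j + 1) * w) * (1 + ε) := by rw [h3]; ring
        _ ≤ b i * (1 + ε) := by gcongr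
        _ = _ := by ring
  choose! j hjJ hj1 hj2 using hidx
  refine ⟨fun i => if w < b i then Sum.inl i else Sum.inr (if w / N < b i then
      ⟨min (j i) J, by omega⟩ else ⟨J + 1, by omega⟩),
    Sum.elim b (fun m => if (m : ℕ) = J + 1 then 0 else w * q ^ (m : ℕ)), ?_, ?_, ?_, ?_⟩
  · rintro (c | c)
    · exact hb c
    · simp only [Sum.elim_inr]
      split_ifs <;> positivity
  · intro i hi
    simp only [if_pos hi, Sum.elim_inl, and_self]
  · intro i hi
    simp only [if_neg (not_lt.mpr hi)]
    exact ⟨_, rfl⟩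
  · intro i hi
    simp only [if_neg (not_lt.mpr hi), Sum.elim_inr]
    by_cases h : w / N < b i
    · have h1 := hjJ i h hi
      have h2 := hj1 i h hi
      have h3 := hj2 i h hi
      have h4 : min (j i) J = j i := min_eq_left h1
      have h5 : j i ≠ J + 1 := by omega
      simp only [if_pos h, h4, if_neg h5]
      rw [abs_of_nonneg (by linarith)]
      have : 0 ≤ w / N := by positivity
      linarith
    · simp only [if_neg h, if_true]
      rw [zero_sub, abs_neg, abs_of_nonneg (hb i)]
      push Not at h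
      have : 0 ≤ ε * b i := mul_nonneg hε.le (hb i)
      linarith

end Pool.Agent.Lib.BL
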