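import Pool.Agent.Lib.BL.Patch
import Pool.Agent.Lib.BL.Round

/-!
# The bound for all balanced halfspaces, with parameters
-/

namespace Pool.Agent.Lib.BL

open Finset
open H99.Bracket (sg)
open H99.Half (mc flip)

theorem sum_sqrt_le {n K : ℕ} (cl : Fin n → Fin n ⊕ Fin K) (P : Fin n → Prop) [DecidablePred P]
    (h1 : ∀ i, P i → cl i = Sum.inl i) (h2 : ∀ i, ¬ P i → ∃ j, cl i = Sum.inr j) :
    ∑ c, Real.sqrt (mc cl c) ≤ ((univ.filter P).card : ℝ) + Real.sqrt (K * n) := by
  classical
  rw [Fintype.sum_sum_type]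
  apply add_le_add
  · calc ∑ i : Fin n, Real.sqrt (mc cl (Sum.inl i)) ≤ ∑ i : Fin n, (if P i then (1 : ℝ) else 0) := by
          refine Finset.sum_le_sum fun i _ => ?_
          have hall : ∀ i', cl i' = Sum.inl i → P i' ∧ i' = i := by
            intro i' hi'
            by_cases hP : P i'
            · refine ⟨hP, ?_⟩
              rw [h1 i' hP] at hi'
              exact Sum.inl_injective hi'
            · obtain ⟨j, hj⟩ := h2 i' hP
              rw [hj] at hi'
              exact absurd hi' (by simp)
          split_ifs with hP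
          · have : mc cl (Sum.inl i) ≤ 1 := by
              unfold mc
              rw [Fintype.card_le_one_iff]
              rintro ⟨x, hx⟩ ⟨y, hy⟩
              apply Subtype.ext
              exact ((hall x hx).2).trans ((hall y hy).2).symm
            rw [Real.sqrt_le_one]
            exact_mod_cast this
          · have : mc cl (Sum.inl i) = 0 := by
              unfold mc
              rw [Fintype.card_eq_zero_iff]
              exact ⟨fun ⟨x, hx⟩ => hP ((hall x hx).2 ▸ (hall x hx).1)⟩
            rw [this]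
            simp
    _ = ((univ.filter P).card : ℝ) := by
          rw [Finset.sum_boole]
  · apply Real.le_sqrt_of_sq_le
    refine (sq_sum_le_card_mul_sum_sq).trans ?_
    rw [Finset.card_univ, Fintype.card_fin]
    gcongr
    have e1 : ∑ j : Fin K, Real.sqrt (mc cl (Sum.inr j)) ^ 2 = ∑ j : Fin K, (mc cl (Sum.inr j) : ℝ) :=
      Finset.sum_congr rfl fun c _ => Real.sq_sqrt (by positivity)
    rw [e1]
    have h := H99.Half.sum_mc cl
    rw [Fintype.sum_sum_type] at h
    have h3 : ∑ j : Fin K, mc cl (Sum.inr j) ≤ n := by omega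
    exact_mod_cast h3

/-- The sign of a real number. -/
noncomputable def sgn (r : ℝ) : ℝ := if r < 0 then -1 else 1

theorem sgn_mul_abs (r : ℝ) : sgn r * |r| = r := by
  unfold sgn
  split_ifs with h
  · rw [abs_of_neg h]; ring
  · rw [abs_of_nonneg (not_lt.mp h)]; ring

theorem abs_sgn_mul (r s : ℝ) (hs : 0 ≤ s) : |sgn r * s| = s := by
  unfold sgn
  split_ifs
  · rw [abs_mul, abs_neg, abs_one, one_mul, abs_of_nonneg hs]
  · rw [one_mul, abs_of_nonneg hs]

theorem abs_sgn (r : ℝ) : |sgn r| = 1 := by
  unfold sgn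
  split_ifs <;> simp

theorem sgn_ne (r : ℝ) : sgn r ≠ 0 := by
  unfold sgn
  split_ifs <;> norm_num

/-- The rounded halfspace: the properties that we need. -/
theorem exists_rounded {n : ℕ} (a : Fin (n + 1) → ℝ) {k : ℕ} (hk0 : 0 < k) (hk : k ≤ n + 1)
    {ε : ℝ} (hε : 0 < ε) (hε1 : ε ≤ 1) (hεN : 1 ≤ ε ^ 2 * (n + 1 : ℕ)) {J : ℕ}
    (hJ : 2 * Real.log (n + 1 : ℕ) / ε ≤ J)
    (hties : ∀ y : Fin (n + 1) → Bool, ∑ i, a i * sg (y i) ≠ 0) :
    ∃ (cl : Fin n → Fin n ⊕ Fin (J + 2)) (ω : Fin n ⊕ Fin (J + 2) → ℝ) (a' : Fin (n + 1) → ℝ),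
      (∀ c, 0 ≤ ω c) ∧ (∀ i : Fin n, |a' i.castSucc| = ω (cl i)) ∧
      (∀ y : Fin (n + 1) → Bool, ∑ i, a' i * sg (y i) ≠ 0) ∧
      (∑ c, Real.sqrt (mc cl c) ≤ k + Real.sqrt ((J + 2 : ℕ) * n)) ∧
      ((((univ.filter fun y : Fin (n + 1) → Bool => 0 ≤ ∑ i, a' i * sg (y i)) \
          (univ.filter fun y : Fin (n + 1) → Bool => 0 ≤ ∑ i, a i * sg (y i))).card : ℝ) ≤
        2 ^ (n + 1) * (2 / (n + 1 : ℕ) + 5 * ε * (1 + Real.log (n + 1 : ℕ)) +
          1 / Real.sqrt k)) := by
  classical
  obtain ⟨i₀, hi1, hi2⟩ := exists_threshold (fun i => |a i|) hk0 hk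
  set w := |a i₀| with hw
  set N : ℝ := ((n + 1 : ℕ) : ℝ) with hNdef
  have hN1 : 1 ≤ N := by
    rw [hNdef]
    push_cast
    linarith [Nat.cast_nonneg (α := ℝ) n]
  have hN0 : 0 < N := by linarith
  have hlogN : 0 ≤ Real.log N := Real.log_nonneg hN1
  have hw0 : 0 ≤ w := abs_nonneg _
  -- the number of singletons
  have hcardP : ((univ.filter fun i : Fin n => w < |a i.castSucc|).card : ℝ) ≤ k := by
    have h1 : (univ.filter fun i : Fin n => w < |a i.castSucc|).card ≤
        (univ.filter fun i : Fin (n + 1) => w < |a i|).card := by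
      apply Finset.card_le_card_of_injOn Fin.castSucc
      · intro i hi
        simpa using hi
      · intro x _ y _ h
        exact Fin.castSucc_injective _ h
    exact_mod_cast h1.trans hi2.le
  rcases eq_or_lt_of_le hw0 with hw00 | hwpos
  · -- all small weights vanish
    refine ⟨fun i => if w < |a i.castSucc| then Sum.inl i else Sum.inr ⟨0, by omega⟩,
      Sum.elim (fun i => |a i.castSucc|) (fun _ => 0), a, ?_, ?_, hties, ?_, ?_⟩
    · rintro (c | c)
      · exact abs_nonneg _
      · exact le_refl _
    · intro i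
      by_cases h : w < |a i.castSucc|
      · simp only [if_pos h, Sum.elim_inl]
      · simp only [if_neg h, Sum.elim_inr]
        rw [← hw00] at h
        exact le_antisymm (not_lt.mp h) (abs_nonneg _)
    · refine (sum_sqrt_le _ (fun i => w < |a i.castSucc|) ?_ ?_).trans ?_
      · intro i hi
        simp only [if_pos hi]
      · intro i hi
        simp only [if_neg hi]
        exact ⟨_, rfl⟩
      · gcongr
    · rw [Finset.sdiff_self]
      simp only [Finset.card_empty, Nat.cast_zero]
      positivity
  · -- the rounding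
    obtain ⟨cl, ω, hω, hcl1, hcl2, hcl3⟩ := exists_round (fun i : Fin n => |a i.castSucc|)
      (fun i => abs_nonneg _) hwpos hN1 hε hε1 hJ
    set η : ℝ := w / N with hη
    have hηpos : 0 < η := by positivity
    -- the sign sums
    set zv : (Fin (n + 1) → Bool) → Option (Fin n ⊕ Fin (J + 2)) → ℝ := fun y c =>
      match c with
      | none => sgn (a (Fin.last n)) * sg (y (Fin.last n))
      | some c => ∑ i ∈ univ.filter (fun i => cl i = c), sgn (a i.castSucc) * sg (y i.castSucc)
      with hzv
    have hsg : ∀ b : Bool, sg b ≠ 0 := by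
      intro b
      cases b <;> simp
    obtain ⟨p, hp0, hp1, hp2⟩ := exists_perturb
      (fun c : Option (Fin n ⊕ Fin (J + 2)) => match c with
        | none => |a (Fin.last n)|
        | some c => ω c) (univ.image zv) η hηpos (by
        intro z hz
        obtain ⟨y, -, rfl⟩ := Finset.mem_image.mp hz
        intro h
        have h1 := congrFun h none
        simp only [hzv, Pi.zero_apply] at h1
        exact mul_ne_zero (sgn_ne _) (hsg _) h1)
    set ω' : Fin n ⊕ Fin (J + 2) → ℝ := fun c => ω c + p (some c) with hω'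
    set bl : ℝ := |a (Fin.last n)| + p none with hbl
    have hω'0 : ∀ c, 0 ≤ ω' c := fun c => add_nonneg (hω c) (hp0 _)
    have hbl0 : 0 ≤ bl := add_nonneg (abs_nonneg _) (hp0 _)
    set a' : Fin (n + 1) → ℝ := fun i => sgn (a i) *
      (Fin.snoc (α := fun _ => ℝ) (fun i : Fin n => ω' (cl i)) bl : Fin (n + 1) → ℝ) i with ha'
    have ha'1 : ∀ i : Fin n, a' i.castSucc = sgn (a i.castSucc) * ω' (cl i) := by
      intro i
      simp only [ha', Fin.snoc_castSucc]
    have ha'2 : a' (Fin.last n) = sgn (a (Fin.last n)) * bl := by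
      simp only [ha', Fin.snoc_last]
    refine ⟨cl, ω', a', hω'0, ?_, ?_, ?_, ?_⟩
    · intro i
      rw [ha'1, abs_sgn_mul _ _ (hω'0 _)]
    · intro y
      have h1 := hp2 (zv y) (Finset.mem_image_of_mem _ (Finset.mem_univ _))
      have h2 : ∑ i, a' i * sg (y i) = ∑ c, ((match c with
        | none => |a (Fin.last n)|
        | some c => ω c) + p c) * zv y c := by
        rw [Fin.sum_univ_castSucc, Fintype.sum_option, ha'2, add_comm]
        congr 1
        · simp only [hzv, hbl]
          ring
        · simp_rw [ha'1]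
          rw [← Finset.sum_fiberwise (univ : Finset (Fin n)) cl]
          refine Finset.sum_congr rfl fun c _ => ?_
          simp only [hzv]
          rw [Finset.mul_sum]
          refine Finset.sum_congr rfl fun i hi => ?_
          rw [(Finset.mem_filter.mp hi).2]
          simp only [hω']
          ring
      rw [h2]
      exact h1
    · refine (sum_sqrt_le cl (fun i => w < |a i.castSucc|) (fun i hi => (hcl1 i hi).1)
        (fun i hi => hcl2 i (not_lt.mp hi))).trans ?_
      gcongr
    · -- the difference of the two halfspaces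
      set v : Fin (n + 1) → ℝ := fun i => a i - a' i with hv
      set σ : ℝ := ∑ i ∈ univ.filter (fun i => |a i| ≤ w), |a i| ^ 2 with hσ
      have hσw : w ^ 2 ≤ σ := by
        have : i₀ ∈ univ.filter (fun i => |a i| ≤ w) := by
          rw [Finset.mem_filter]
          exact ⟨Finset.mem_univ _, le_refl _⟩
        exact Finset.single_le_sum (f := fun i => |a i| ^ 2) (fun i _ => sq_nonneg _) this
      have hσ0 : 0 < σ := lt_of_lt_of_le (by positivity) hσw
      have hvi : ∀ i, v i ^ 2 ≤ (if |a i| ≤ w then 2 * ε ^ 2 * |a i| ^ 2 else 0) + 8 * η ^ 2 := by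
        have key : ∀ i, |v i| ≤ (if |a i| ≤ w then ε * |a i| else 0) + 2 * η := by
          intro i
          have hε' : 0 ≤ (if |a i| ≤ w then ε * |a i| else 0) := by
            split_ifs <;> positivity
          have habs : ∀ s : ℝ, 0 ≤ s → |a i - sgn (a i) * s| = abs (s - |a i|) := by
            intro s _
            have h1 : a i - sgn (a i) * s = sgn (a i) * (|a i| - s) := by
              rw [mul_sub, sgn_mul_abs]
            rw [h1, abs_mul, abs_sgn, one_mul, abs_sub_comm]
          induction i using Fin.lastCases with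
          | last =>
            simp only [hv]
            rw [ha'2, habs bl hbl0]
            simp only [hbl]
            rw [add_sub_cancel_left, abs_of_nonneg (hp0 _)]
            have := hp1 none
            linarith
          | cast i =>
            simp only [hv]
            rw [ha'1, habs _ (hω'0 _)]
            simp only [hω']
            have h1 := hp1 (some (cl i))
            have h2 := hp0 (some (cl i))
            by_cases h : |a i.castSucc| ≤ w
            · have h3 := hcl3 i h
              rw [if_pos h]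
              have h4 : abs (ω (cl i) + p (some (cl i)) - |a i.castSucc|) ≤
                  abs (ω (cl i) - |a i.castSucc|) + |p (some (cl i))| := by
                have : ω (cl i) + p (some (cl i)) - |a i.castSucc| =
                  (ω (cl i) - |a i.castSucc|) + p (some (cl i)) := by ring
                rw [this]
                exact abs_add_le _ _
              rw [abs_of_nonneg h2] at h4
              linarith
            · push Not at h
              have h3 := (hcl1 i h).2
              rw [if_neg (not_le.mpr h), h3, add_sub_cancel_left, abs_of_nonneg h2]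
              linarith
        intro i
        have h1 := key i
        have h0 : 0 ≤ |v i| := abs_nonneg _
        rw [← sq_abs (v i)]
        by_cases h : |a i| ≤ w
        · rw [if_pos h] at h1 ⊢
          calc |v i| ^ 2 ≤ (ε * |a i| + 2 * η) ^ 2 := by gcongr
            _ ≤ 2 * ε ^ 2 * |a i| ^ 2 + 8 * η ^ 2 := by
                nlinarith [sq_nonneg (ε * |a i| - 2 * η)]
        · rw [if_neg h] at h1 ⊢
          calc |v i| ^ 2 ≤ (0 + 2 * η) ^ 2 := by gcongr
            _ ≤ 0 + 8 * η ^ 2 := by nlinarith [sq_nonneg η]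
      set V : ℝ := 10 * ε ^ 2 * σ with hV
      have hVpos : 0 < V := by positivity
      have hsumv : ∑ i, v i ^ 2 ≤ V := by
        calc ∑ i, v i ^ 2 ≤ ∑ i : Fin (n + 1),
              ((if |a i| ≤ w then 2 * ε ^ 2 * |a i| ^ 2 else 0) + 8 * η ^ 2) :=
              Finset.sum_le_sum fun i _ => hvi i
          _ = 2 * ε ^ 2 * σ + N * (8 * η ^ 2) := by
              rw [Finset.sum_add_distrib, ← Finset.sum_filter, ← Finset.mul_sum, Finset.sum_const,
                Finset.card_univ, Fintype.card_fin, nsmul_eq_mul]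
          _ = 2 * ε ^ 2 * σ + 8 * w ^ 2 / N := by
              rw [hη]
              field_simp
          _ ≤ 2 * ε ^ 2 * σ + 8 * (ε ^ 2 * σ) := by
              gcongr
              rw [div_le_iff₀ hN0]
              calc 8 * w ^ 2 ≤ 8 * σ := by gcongr
                _ = 8 * σ * 1 := by ring
                _ ≤ 8 * σ * (ε ^ 2 * N) := by gcongr
                _ = _ := by ring
          _ = V := by rw [hV]; ring
      set T : ℝ := Real.sqrt (2 * V * Real.log N) with hT
      have hT0 : 0 ≤ T := Real.sqrt_nonneg _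
      have hTsq : T ^ 2 = 2 * V * Real.log N := Real.sq_sqrt (by positivity)
      have hlarge := card_large v hsumv hVpos hT0
      have hexp : Real.exp (-(T ^ 2 / (2 * V))) = 1 / N := by
        rw [hTsq]
        have : 2 * V * Real.log N / (2 * V) = Real.log N := by field_simp
        rw [this, Real.exp_neg, Real.exp_log hN0, one_div]
      rw [hexp] at hlarge
      obtain ⟨δ, hδ0, hδw, hδ⟩ := exists_scale (fun i => |a i|) (fun i => abs_nonneg _)
        (w := w) (i₀ := i₀) rfl hwpos
      set K := (univ.filter fun i => δ ≤ |a i|).card with hK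
      have hKk : k ≤ K := by
        refine hi1.trans (Finset.card_le_card ?_)
        intro i hi
        rw [Finset.mem_filter] at hi ⊢
        exact ⟨hi.1, hδw.trans hi.2⟩
      have hK0 : 0 < K := by omega
      have hsmall := card_small a hδ0 hT0 (k := K) rfl hK0
      have hKpos : (0 : ℝ) < K := by exact_mod_cast hK0
      have hkpos : (0 : ℝ) < k := by exact_mod_cast hk0
      have hsK : 0 < Real.sqrt K := Real.sqrt_pos.mpr hKpos
      have hL : 0 < 1 + Real.log N := by linarith
      -- the main estimate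
      have hratio : T / (δ * Real.sqrt K) ≤ 5 * ε * (1 + Real.log N) := by
        rw [div_le_iff₀ (by positivity)]
        have h1 : T ^ 2 ≤ (5 * ε * (1 + Real.log N) * (δ * Real.sqrt K)) ^ 2 := by
          rw [hTsq, hV]
          have h2 : (δ * Real.sqrt K) ^ 2 = δ ^ 2 * K := by
            rw [mul_pow, Real.sq_sqrt hKpos.le]
          rw [mul_pow, h2]
          have h3 : σ ≤ (1 + Real.log N) * (δ ^ 2 * K) := hδ
          calc 2 * (10 * ε ^ 2 * σ) * Real.log N
              ≤ 2 * (10 * ε ^ 2 * ((1 + Real.log N) * (δ ^ 2 * K))) * (1 + Real.log N) := by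
                gcongr
                linarith
            _ = 20 * (ε ^ 2 * (1 + Real.log N) ^ 2 * (δ ^ 2 * K)) := by ring
            _ ≤ 25 * (ε ^ 2 * (1 + Real.log N) ^ 2 * (δ ^ 2 * K)) := by
                gcongr
                norm_num
            _ = _ := by ring
        exact le_of_sq_le_sq h1 (by positivity)
      have hsmall2 : ((univ.filter fun x : Fin (n + 1) → Bool =>
          |∑ i, a i * sg (x i)| ≤ T).card : ℝ) ≤
          2 ^ (n + 1) * (5 * ε * (1 + Real.log N) + 1 / Real.sqrt k) := by
        refine hsmall.trans ?_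
        have h1 : (T / δ + 1) * (2 ^ (n + 1) / Real.sqrt K) =
            2 ^ (n + 1) * (T / (δ * Real.sqrt K) + 1 / Real.sqrt K) := by
          field_simp
        rw [h1]
        have h2 : 1 / Real.sqrt K ≤ 1 / Real.sqrt k := by
          apply one_div_le_one_div_of_le (Real.sqrt_pos.mpr hkpos)
          apply Real.sqrt_le_sqrt
          exact_mod_cast hKk
        gcongr
      have hsub : ((univ.filter fun y : Fin (n + 1) → Bool => 0 ≤ ∑ i, a' i * sg (y i)) \
          (univ.filter fun y : Fin (n + 1) → Bool => 0 ≤ ∑ i, a i * sg (y i))) ⊆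
          (univ.filter fun x : Fin (n + 1) → Bool => T ≤ |∑ i, v i * sg (x i)|) ∪
          (univ.filter fun x : Fin (n + 1) → Bool => |∑ i, a i * sg (x i)| ≤ T) := by
        intro x hx
        simp only [Finset.mem_sdiff, Finset.mem_filter, Finset.mem_univ, true_and,
          Finset.mem_union] at hx ⊢
        by_cases h : |∑ i, a i * sg (x i)| ≤ T
        · exact Or.inr h
        · left
          push Not at h
          have h1 : ∑ i, v i * sg (x i) = ∑ i, a i * sg (x i) - ∑ i, a' i * sg (x i) := by
            rw [← Finset.sum_sub_distrib]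
            exact Finset.sum_congr rfl fun i _ => by simp only [hv]; ring
          have h2 := hx.1
          have h3 := hx.2
          push Not at h3
          rw [abs_of_neg h3] at h
          rw [h1, abs_of_neg (by linarith)]
          linarith
      calc _ ≤ ((univ.filter fun x : Fin (n + 1) → Bool => T ≤ |∑ i, v i * sg (x i)|).card : ℝ) +
          ((univ.filter fun x : Fin (n + 1) → Bool => |∑ i, a i * sg (x i)| ≤ T).card : ℝ) := by
            exact_mod_cast (Finset.card_le_card hsub).trans (Finset.card_union_le _ _)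
        _ ≤ 2 * 2 ^ (n + 1) * (1 / N) +
            2 ^ (n + 1) * (5 * ε * (1 + Real.log N) + 1 / Real.sqrt k) :=
            add_le_add hlarge hsmall2
        _ = _ := by ring

/-- The bound with parameters. -/
theorem main_bound {n : ℕ} (a : Fin (n + 1) → ℝ)
    (hc : Set.ncard {y : Fin (n + 1) → Bool | 0 ≤ ∑ i, a i * sg (y i)} = 2 ^ n)
    {k : ℕ} (hk0 : 0 < k) (hk : k ≤ n + 1)
    {ε : ℝ} (hε : 0 < ε) (hε1 : ε ≤ 1) (hεN : 1 ≤ ε ^ 2 * (n + 1 : ℕ)) {J : ℕ}
    (hJ : 2 * Real.log (n + 1 : ℕ) / ε ≤ J) :
    ∃ g : (Fin n → Bool) → (Fin (n + 1) → Bool), Function.Injective g ∧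
      Set.range g = {y | 0 ≤ ∑ i, a i * sg (y i)} ∧
      ∑ x, ∑ i, (hammingDist (g x) (g (flip x i)) : ℝ) ≤
        2 ^ n * (11 * n + 2 * Real.sqrt n * (k + Real.sqrt ((J + 2 : ℕ) * n))) +
        2 * n * (2 ^ (n + 1) * (2 / (n + 1 : ℕ) + 5 * ε * (1 + Real.log (n + 1 : ℕ)) +
          1 / Real.sqrt k) * Real.sqrt (2 * (n + 1 : ℕ) * Real.log ((n + 1 : ℕ) ^ 2)) +
          (n + 1 : ℕ) * (2 ^ (n + 1) / (n + 1 : ℕ) ^ 2)) := by
  classical
  have hties := H99.Half.no_ties a hc
  obtain ⟨cl, ω, a', h1, h2, h3, h4, h5⟩ := exists_rounded a hk0 hk hε hε1 hεN hJ hties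
  obtain ⟨f, hf1, hf2, hf3⟩ := H99.Half.exists_map cl ω h1 a' h2 h3
  set H := univ.filter fun y : Fin (n + 1) → Bool => 0 ≤ ∑ i, a i * sg (y i) with hH
  set H' := univ.filter fun y : Fin (n + 1) → Bool => 0 ≤ ∑ i, a' i * sg (y i) with hH'
  have hcH : (H : Set (Fin (n + 1) → Bool)) = {y | 0 ≤ ∑ i, a i * sg (y i)} := by
    ext y
    simp [hH]
  have hcH' : (H' : Set (Fin (n + 1) → Bool)) = {y | 0 ≤ ∑ i, a' i * sg (y i)} := by
    ext y
    simp [hH']
  have hcardH : H.card = 2 ^ n := by
    rw [← hc, ← hcH, Set.ncard_coe_finset]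
  have hcardH' : H'.card = 2 ^ n := by
    have h6 : H' = univ.image f := by
      apply Finset.coe_injective
      rw [hcH', ← hf2]
      simp
    rw [h6, Finset.card_image_of_injective _ hf1, Finset.card_univ, Fintype.card_fun,
      Fintype.card_bool, Fintype.card_fin]
  have hN1 : (1 : ℝ) ≤ ((n + 1 : ℕ) : ℝ) := by
    push_cast
    linarith [Nat.cast_nonneg (α := ℝ) n]
  have hM : (1 : ℝ) ≤ ((n + 1 : ℕ) : ℝ) ^ 2 := one_le_pow₀ hN1
  obtain ⟨g, hg1, hg2, hg3⟩ := exists_patched hM f hf1 H H' (by rw [hcH', hf2])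
    (by rw [hcardH, hcardH'])
  refine ⟨g, hg1, by rw [hg2, hcH], hg3.trans ?_⟩
  apply add_le_add
  · refine hf3.trans ?_
    gcongr
  · gcongr

end Pool.Agent.Lib.BL
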