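import Mathlib
import Pool.Agent.H99.Half

/-!
# Littlewood–Offord and Hoeffding bounds
-/

namespace Pool.Agent.Lib.BL

open Finset
open H99.Bracket (sg)

theorem cb_bound (j : ℕ) : j.centralBinom ^ 2 * (3 * j + 1) ≤ 16 ^ j := by
  induction j with
  | zero => simp
  | succ j ih =>
    have h := Nat.succ_mul_centralBinom_succ j
    have h1 : (j + 1) ^ 2 * ((j + 1).centralBinom ^ 2 * (3 * (j + 1) + 1)) ≤
        (j + 1) ^ 2 * 16 ^ (j + 1) := by
      calc (j + 1) ^ 2 * ((j + 1).centralBinom ^ 2 * (3 * (j + 1) + 1))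
          = ((j + 1) * (j + 1).centralBinom) ^ 2 * (3 * j + 4) := by ring
        _ = (2 * (2 * j + 1) * j.centralBinom) ^ 2 * (3 * j + 4) := by rw [h]
        _ = (4 * (2 * j + 1) ^ 2 * (3 * j + 4)) * j.centralBinom ^ 2 := by ring
        _ ≤ (16 * (3 * j + 1) * (j + 1) ^ 2) * j.centralBinom ^ 2 := by
            gcongr ?_ * _
            nlinarith [Nat.zero_le j, Nat.zero_le (j ^ 2), Nat.zero_le (j ^ 3)]
        _ = 16 * (j + 1) ^ 2 * (j.centralBinom ^ 2 * (3 * j + 1)) := by ring
        _ ≤ 16 * (j + 1) ^ 2 * 16 ^ j := by gcongr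
        _ = _ := by ring
    exact Nat.le_of_mul_le_mul_left h1 (by positivity)

theorem choose_half_sq (k : ℕ) : (k.choose (k / 2)) ^ 2 * k ≤ 4 ^ k := by
  rcases Nat.even_or_odd' k with ⟨j, rfl | rfl⟩
  · have h1 : 2 * j / 2 = j := by omega
    rw [h1, ← Nat.centralBinom_eq_two_mul_choose]
    calc j.centralBinom ^ 2 * (2 * j) ≤ j.centralBinom ^ 2 * (3 * j + 1) := by
          gcongr
          omega
      _ ≤ 16 ^ j := cb_bound j
      _ = 4 ^ (2 * j) := by rw [pow_mul]; norm_num
  · have h1 : (2 * j + 1) / 2 = j := by omega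
    rw [h1]
    have h2 : 2 * (2 * j + 1).choose j = (j + 1).centralBinom := by
      rw [Nat.centralBinom_eq_two_mul_choose, show 2 * (j + 1) = (2 * j + 1) + 1 by ring,
        Nat.choose_succ_succ, Nat.choose_symm_half]
      ring
    have h3 := cb_bound (j + 1)
    rw [← h2] at h3
    have h4 : 4 * ((2 * j + 1).choose j ^ 2 * (2 * j + 1)) ≤ 4 * 4 ^ (2 * j + 1) := by
      calc 4 * ((2 * j + 1).choose j ^ 2 * (2 * j + 1))
          = (2 * (2 * j + 1).choose j) ^ 2 * (2 * j + 1) := by ring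
        _ ≤ (2 * (2 * j + 1).choose j) ^ 2 * (3 * (j + 1) + 1) :=
            Nat.mul_le_mul_left _ (by omega)
        _ ≤ 16 ^ (j + 1) := h3
        _ = 4 * 4 ^ (2 * j + 1) := by
            rw [show (16 : ℕ) = 4 ^ 2 by norm_num, ← pow_mul]
            ring
    omega

theorem choose_half_le {k : ℕ} (hk : 0 < k) :
    ((k.choose (k / 2) : ℕ) : ℝ) ≤ 2 ^ k / Real.sqrt k := by
  have hk' : (0 : ℝ) < k := by exact_mod_cast hk
  have hs : 0 < Real.sqrt k := Real.sqrt_pos.mpr hk'
  rw [le_div_iff₀ hs]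
  have h := choose_half_sq k
  have h1 : (((k.choose (k / 2) : ℕ) : ℝ) * Real.sqrt k) ^ 2 ≤ (2 ^ k) ^ 2 := by
    rw [mul_pow, Real.sq_sqrt hk'.le, ← pow_mul, mul_comm k 2, pow_mul]
    norm_num
    exact_mod_cast h
  exact le_of_sq_le_sq h1 (by positivity)

theorem card_window {α : Type*} [Fintype α] [DecidableEq α] (b : α → ℝ) {δ : ℝ} (hδ : 0 < δ)
    (hb : ∀ i, δ ≤ b i) (c : ℝ) :
    (univ.filter fun z : α → Bool => c ≤ ∑ i, b i * sg (z i) ∧
      ∑ i, b i * sg (z i) < c + 2 * δ).card ≤ (Fintype.card α).choose (Fintype.card α / 2) := by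
  classical
  set F := univ.filter fun z : α → Bool => c ≤ ∑ i, b i * sg (z i) ∧
      ∑ i, b i * sg (z i) < c + 2 * δ with hF
  set e : (α → Bool) → Finset α := fun z => univ.filter fun i => z i = true with he
  have hinj : Function.Injective e := by
    intro x y hxy
    funext i
    have h1 : i ∈ e x ↔ i ∈ e y := by rw [hxy]
    simp only [he, Finset.mem_filter, Finset.mem_univ, true_and] at h1
    cases hx : x i <;> cases hy : y i <;> simp_all
  rw [← Finset.card_image_of_injective F hinj]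
  apply IsAntichain.sperner
  intro s hs t ht hst hsub
  obtain ⟨x, hx, rfl⟩ := Finset.mem_image.mp (Finset.mem_coe.mp hs)
  obtain ⟨y, hy, rfl⟩ := Finset.mem_image.mp (Finset.mem_coe.mp ht)
  rw [hF, Finset.mem_filter] at hx hy
  have hle : ∀ i, b i * sg (x i) ≤ b i * sg (y i) := by
    intro i
    have hbi : 0 < b i := hδ.trans_le (hb i)
    have h1 : x i = true → y i = true := by
      intro h
      have : i ∈ e x := by simp [he, h]
      have := hsub this
      simpa [he] using this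
    cases hxi : x i
    · cases hyi : y i
      · exact le_refl _
      · simp only [H99.Bracket.sg_false, H99.Bracket.sg_true]
        linarith
    · rw [h1 hxi]
  obtain ⟨j, hj⟩ : ∃ j, x j ≠ y j := by
    by_contra h
    push Not at h
    exact hst (by rw [funext h])
  have hj2 : x j = false ∧ y j = true := by
    have h1 : x j = true → y j = true := by
      intro h
      have : j ∈ e x := by simp [he, h]
      have := hsub this
      simpa [he] using this
    cases hxj : x j <;> cases hyj : y j <;> simp_all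
  have h2 : ∑ i, b i * sg (x i) + 2 * b j ≤ ∑ i, b i * sg (y i) := by
    rw [← Finset.add_sum_erase univ (fun i => b i * sg (x i)) (Finset.mem_univ j),
      ← Finset.add_sum_erase univ (fun i => b i * sg (y i)) (Finset.mem_univ j)]
    have h3 : ∑ i ∈ univ.erase j, b i * sg (x i) ≤ ∑ i ∈ univ.erase j, b i * sg (y i) :=
      Finset.sum_le_sum fun i _ => hle i
    simp only [hj2.1, hj2.2, H99.Bracket.sg_false, H99.Bracket.sg_true]
    linarith
  have h4 := hb j
  linarith [hx.2.1, hy.2.2]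

/-- Twisting by signs. -/
def twE {α : Type*} (s : α → Bool) : (α → Bool) ≃ (α → Bool) where
  toFun z := fun i => xor (s i) (z i)
  invFun z := fun i => xor (s i) (z i)
  left_inv z := by funext i; simp
  right_inv z := by funext i; simp

theorem card_window' {α : Type*} [Fintype α] [DecidableEq α] (b : α → ℝ) {δ : ℝ} (hδ : 0 < δ)
    (hb : ∀ i, δ ≤ |b i|) (c : ℝ) :
    (univ.filter fun z : α → Bool => c ≤ ∑ i, b i * sg (z i) ∧
      ∑ i, b i * sg (z i) < c + 2 * δ).card ≤ (Fintype.card α).choose (Fintype.card α / 2) := by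
  classical
  refine le_trans (le_of_eq ?_) (card_window (fun i => |b i|) hδ hb c)
  set s : α → Bool := fun i => decide (b i < 0) with hs
  have hkey : ∀ z : α → Bool, ∑ i, |b i| * sg (twE s z i) = ∑ i, b i * sg (z i) := by
    intro z
    refine Finset.sum_congr rfl fun i _ => ?_
    simp only [twE, Equiv.coe_fn_mk, hs]
    by_cases h : b i < 0
    · simp only [h, decide_true, Bool.true_xor, H99.Half.sg_not, abs_of_neg h]
      ring
    · simp only [h, decide_false, Bool.false_xor, abs_of_nonneg (not_lt.mp h)]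
  apply Finset.card_bij (fun z _ => twE s z)
  · intro z hz
    rw [Finset.mem_filter] at hz ⊢
    simp only [hkey]
    exact ⟨Finset.mem_univ _, hz.2⟩
  · intro x _ y _ h
    exact (twE s).injective h
  · intro z hz
    refine ⟨(twE s).symm z, ?_, by simp⟩
    rw [Finset.mem_filter] at hz ⊢
    have h := hkey ((twE s).symm z)
    rw [Equiv.apply_symm_apply] at h
    rw [← h]
    exact ⟨Finset.mem_univ _, hz.2⟩

theorem card_window_all {N : ℕ} (a : Fin N → ℝ) {δ : ℝ} (hδ : 0 < δ) (c : ℝ) {k : ℕ}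
    (hk : (univ.filter fun i => δ ≤ |a i|).card = k) (hk0 : 0 < k) :
    ((univ.filter fun x : Fin N → Bool => c ≤ ∑ i, a i * sg (x i) ∧
      ∑ i, a i * sg (x i) < c + 2 * δ).card : ℝ) ≤ 2 ^ N / Real.sqrt k := by
  classical
  set p : Fin N → Prop := fun i => δ ≤ |a i| with hp
  have hkc : Fintype.card {i // p i} = k := by
    rw [Fintype.card_subtype, ← hk]
  have hkc' : Fintype.card {i // ¬ p i} = N - k := by
    rw [Fintype.card_subtype_compl, Fintype.card_fin, hkc]
  have hkN : k ≤ N := by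
    rw [← hk]
    exact (Finset.card_le_univ _).trans (by simp)
  set E := Equiv.piEquivPiSubtypeProd p (fun _ => Bool) with hE
  have h1 : ∀ x : Fin N → Bool, ∑ i, a i * sg (x i) =
      ∑ i : {i // p i}, a i * sg ((E x).1 i) + ∑ i : {i // ¬ p i}, a i * sg ((E x).2 i) := by
    intro x
    rw [← Fintype.sum_subtype_add_sum_subtype p (fun i => a i * sg (x i))]
    rfl
  have h2 : (univ.filter fun x : Fin N → Bool => c ≤ ∑ i, a i * sg (x i) ∧
      ∑ i, a i * sg (x i) < c + 2 * δ).card =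
      ∑ y : {i // ¬ p i} → Bool, (univ.filter fun z : {i // p i} → Bool =>
        (c - ∑ i : {i // ¬ p i}, a i * sg (y i)) ≤ ∑ i : {i // p i}, a i * sg (z i) ∧
        ∑ i : {i // p i}, a i * sg (z i) <
          (c - ∑ i : {i // ¬ p i}, a i * sg (y i)) + 2 * δ).card := by
    simp_rw [Finset.card_filter]
    rw [← Equiv.sum_comp E.symm, Fintype.sum_prod_type_right]
    refine Finset.sum_congr rfl fun y _ => Finset.sum_congr rfl fun z _ => ?_
    have h3 := h1 (E.symm (z, y))
    rw [Equiv.apply_symm_apply] at h3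
    simp only at h3
    rw [h3]
    congr 1
    apply propext
    constructor
    · rintro ⟨h4, h5⟩
      constructor <;> linarith
    · rintro ⟨h4, h5⟩
      constructor <;> linarith
  rw [h2]
  have h3 : (∑ y : {i // ¬ p i} → Bool, (univ.filter fun z : {i // p i} → Bool =>
        (c - ∑ i : {i // ¬ p i}, a i * sg (y i)) ≤ ∑ i : {i // p i}, a i * sg (z i) ∧
        ∑ i : {i // p i}, a i * sg (z i) <
          (c - ∑ i : {i // ¬ p i}, a i * sg (y i)) + 2 * δ).card) ≤
      ∑ y : {i // ¬ p i} → Bool, k.choose (k / 2) := by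
    refine Finset.sum_le_sum fun y _ => ?_
    rw [← hkc]
    exact card_window' (fun i : {i // p i} => a i) hδ (fun i => i.2) _
  have h4 : (∑ y : {i // ¬ p i} → Bool, k.choose (k / 2)) = 2 ^ (N - k) * k.choose (k / 2) := by
    rw [Finset.sum_const, Finset.card_univ, Fintype.card_fun, Fintype.card_bool, hkc', smul_eq_mul]
  rw [h4] at h3
  calc ((∑ y : {i // ¬ p i} → Bool, (univ.filter fun z : {i // p i} → Bool =>
        (c - ∑ i : {i // ¬ p i}, a i * sg (y i)) ≤ ∑ i : {i // p i}, a i * sg (z i) ∧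
        ∑ i : {i // p i}, a i * sg (z i) <
          (c - ∑ i : {i // ¬ p i}, a i * sg (y i)) + 2 * δ).card : ℕ) : ℝ)
      ≤ ((2 ^ (N - k) * k.choose (k / 2) : ℕ) : ℝ) := by exact_mod_cast h3
    _ = 2 ^ (N - k) * ((k.choose (k / 2) : ℕ) : ℝ) := by push_cast; ring
    _ ≤ 2 ^ (N - k) * (2 ^ k / Real.sqrt k) := by
        gcongr
        exact choose_half_le hk0
    _ = 2 ^ N / Real.sqrt k := by
        rw [← mul_div_assoc, ← pow_add, Nat.sub_add_cancel hkN]

/-- Anti-concentration. -/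
theorem card_small {N : ℕ} (a : Fin N → ℝ) {δ t : ℝ} (hδ : 0 < δ) (ht : 0 ≤ t) {k : ℕ}
    (hk : (univ.filter fun i => δ ≤ |a i|).card = k) (hk0 : 0 < k) :
    ((univ.filter fun x : Fin N → Bool => |∑ i, a i * sg (x i)| ≤ t).card : ℝ) ≤
      (t / δ + 1) * (2 ^ N / Real.sqrt k) := by
  classical
  have hsub : (univ.filter fun x : Fin N → Bool => |∑ i, a i * sg (x i)| ≤ t) ⊆
      (range (⌊t / δ⌋₊ + 1)).biUnion fun j => univ.filter fun x : Fin N → Bool =>
        (-t + 2 * δ * j) ≤ ∑ i, a i * sg (x i) ∧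
          ∑ i, a i * sg (x i) < (-t + 2 * δ * j) + 2 * δ := by
    intro x hx
    rw [Finset.mem_filter] at hx
    set u := ∑ i, a i * sg (x i) with hu
    obtain ⟨h1, h2⟩ := abs_le.mp hx.2
    rw [Finset.mem_biUnion]
    have h0 : 0 ≤ (u + t) / (2 * δ) := by
      apply div_nonneg <;> linarith
    refine ⟨⌊(u + t) / (2 * δ)⌋₊, ?_, ?_⟩
    · rw [Finset.mem_range, Nat.lt_succ_iff]
      apply Nat.floor_le_floor
      rw [div_le_div_iff₀ (by positivity) hδ]
      nlinarith
    · rw [Finset.mem_filter]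
      have h3 := Nat.floor_le h0
      have h4 := Nat.lt_floor_add_one ((u + t) / (2 * δ))
      rw [le_div_iff₀ (by positivity)] at h3
      rw [div_lt_iff₀ (by positivity)] at h4
      refine ⟨Finset.mem_univ _, ?_, ?_⟩ <;> nlinarith
  calc ((univ.filter fun x : Fin N → Bool => |∑ i, a i * sg (x i)| ≤ t).card : ℝ)
      ≤ (((range (⌊t / δ⌋₊ + 1)).biUnion fun j => univ.filter fun x : Fin N → Bool =>
        (-t + 2 * δ * j) ≤ ∑ i, a i * sg (x i) ∧
          ∑ i, a i * sg (x i) < (-t + 2 * δ * j) + 2 * δ).card : ℝ) := by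
        exact_mod_cast Finset.card_le_card hsub
    _ ≤ ((∑ j ∈ range (⌊t / δ⌋₊ + 1), (univ.filter fun x : Fin N → Bool =>
        (-t + 2 * δ * j) ≤ ∑ i, a i * sg (x i) ∧
          ∑ i, a i * sg (x i) < (-t + 2 * δ * j) + 2 * δ).card : ℕ) : ℝ) := by
        exact_mod_cast Finset.card_biUnion_le
    _ ≤ ∑ j ∈ range (⌊t / δ⌋₊ + 1), (2 ^ N / Real.sqrt k) := by
        push_cast
        refine Finset.sum_le_sum fun j _ => ?_
        exact card_window_all a hδ _ hk hk0
    _ = ((⌊t / δ⌋₊ + 1 : ℕ) : ℝ) * (2 ^ N / Real.sqrt k) := by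
        rw [Finset.sum_const, Finset.card_range, nsmul_eq_mul]
    _ ≤ (t / δ + 1) * (2 ^ N / Real.sqrt k) := by
        gcongr
        push_cast
        gcongr
        exact Nat.floor_le (by positivity)

/-- The exponential moment. -/
theorem sum_exp {N : ℕ} (v : Fin N → ℝ) :
    ∑ x : Fin N → Bool, Real.exp (∑ i, v i * sg (x i)) ≤
      2 ^ N * Real.exp ((∑ i, v i ^ 2) / 2) := by
  classical
  have h1 : ∑ x : Fin N → Bool, Real.exp (∑ i, v i * sg (x i)) =
      ∏ i, ∑ b : Bool, Real.exp (v i * sg b) := by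
    rw [Finset.prod_univ_sum]
    simp only [Fintype.piFinset_univ, Real.exp_sum]
  have h2 : ∀ i, ∑ b : Bool, Real.exp (v i * sg b) ≤ 2 * Real.exp (v i ^ 2 / 2) := by
    intro i
    rw [Fintype.sum_bool, H99.Bracket.sg_true, H99.Bracket.sg_false]
    have h3 := Real.cosh_le_exp_half_sq (v i)
    rw [Real.cosh_eq] at h3
    rw [mul_one, mul_neg_one]
    linarith
  rw [h1]
  calc ∏ i, ∑ b : Bool, Real.exp (v i * sg b) ≤ ∏ i : Fin N, (2 * Real.exp (v i ^ 2 / 2)) :=
        Finset.prod_le_prod (fun i _ => Finset.sum_nonneg fun b _ => (Real.exp_pos _).le)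
          fun i _ => h2 i
    _ = 2 ^ N * Real.exp ((∑ i, v i ^ 2) / 2) := by
        rw [Finset.prod_mul_distrib, Finset.prod_const, Finset.card_univ, Fintype.card_fin,
          ← Real.exp_sum, Finset.sum_div]

theorem card_large_aux {N : ℕ} (v : Fin N → ℝ) {V T : ℝ} (hV : ∑ i, v i ^ 2 ≤ V) (hV0 : 0 < V)
    (hT : 0 ≤ T) :
    ((univ.filter fun x : Fin N → Bool => T ≤ ∑ i, v i * sg (x i)).card : ℝ) ≤
      2 ^ N * Real.exp (-(T ^ 2 / (2 * V))) := by
  classical
  set l : ℝ := T / V with hl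
  have hl0 : 0 ≤ l := by positivity
  have h1 := sum_exp (fun i => l * v i)
  have h2 : ∑ i, (l * v i) ^ 2 = l ^ 2 * ∑ i, v i ^ 2 := by
    rw [Finset.mul_sum]
    exact Finset.sum_congr rfl fun i _ => by ring
  have h3 : ∀ x : Fin N → Bool, ∑ i, l * v i * sg (x i) = l * ∑ i, v i * sg (x i) := by
    intro x
    rw [Finset.mul_sum]
    exact Finset.sum_congr rfl fun i _ => by ring
  simp_rw [h3] at h1
  rw [h2] at h1
  have h4 : ((univ.filter fun x : Fin N → Bool => T ≤ ∑ i, v i * sg (x i)).card : ℝ) *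
      Real.exp (l * T) ≤ ∑ x : Fin N → Bool, Real.exp (l * ∑ i, v i * sg (x i)) := by
    rw [← nsmul_eq_mul, ← Finset.sum_const]
    refine (Finset.sum_le_sum (fun x hx => ?_)).trans
      (Finset.sum_le_sum_of_subset_of_nonneg (Finset.filter_subset _ _)
        fun x _ _ => (Real.exp_pos _).le)
    rw [Finset.mem_filter] at hx
    apply Real.exp_le_exp.mpr
    exact mul_le_mul_of_nonneg_left hx.2 hl0
  have h5 : Real.exp (l ^ 2 * (∑ i, v i ^ 2) / 2) ≤ Real.exp (l ^ 2 * V / 2) := by
    apply Real.exp_le_exp.mpr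
    gcongr
  have h6 : ((univ.filter fun x : Fin N → Bool => T ≤ ∑ i, v i * sg (x i)).card : ℝ) *
      Real.exp (l * T) ≤ 2 ^ N * Real.exp (l ^ 2 * V / 2) :=
    h4.trans (h1.trans (mul_le_mul_of_nonneg_left h5 (by positivity)))
  have h7 : Real.exp (l ^ 2 * V / 2) = Real.exp (-(T ^ 2 / (2 * V))) * Real.exp (l * T) := by
    rw [← Real.exp_add]
    congr 1
    rw [hl]
    field_simp
    ring
  rw [h7, ← mul_assoc] at h6
  exact le_of_mul_le_mul_right h6 (Real.exp_pos _)

/-- Hoeffding's inequality. -/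
theorem card_large {N : ℕ} (v : Fin N → ℝ) {V T : ℝ} (hV : ∑ i, v i ^ 2 ≤ V) (hV0 : 0 < V)
    (hT : 0 ≤ T) :
    ((univ.filter fun x : Fin N → Bool => T ≤ |∑ i, v i * sg (x i)|).card : ℝ) ≤
      2 * 2 ^ N * Real.exp (-(T ^ 2 / (2 * V))) := by
  classical
  have h1 := card_large_aux v hV hV0 hT
  have h2 := card_large_aux (fun i => - v i) (V := V) (by simpa using hV) hV0 hT
  have hsub : (univ.filter fun x : Fin N → Bool => T ≤ |∑ i, v i * sg (x i)|) ⊆
      (univ.filter fun x : Fin N → Bool => T ≤ ∑ i, v i * sg (x i)) ∪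
      (univ.filter fun x : Fin N → Bool => T ≤ ∑ i, - v i * sg (x i)) := by
    intro x hx
    simp only [Finset.mem_filter, Finset.mem_univ, true_and, Finset.mem_union] at hx ⊢
    rcases le_abs.mp hx with h | h
    · exact Or.inl h
    · right
      simp only [neg_mul, Finset.sum_neg_distrib]
      exact h
  have h3 : ((univ.filter fun x : Fin N → Bool => T ≤ |∑ i, v i * sg (x i)|).card : ℝ) ≤
      (univ.filter fun x : Fin N → Bool => T ≤ ∑ i, v i * sg (x i)).card +
      (univ.filter fun x : Fin N → Bool => T ≤ ∑ i, - v i * sg (x i)).card := by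
    exact_mod_cast (Finset.card_le_card hsub).trans (Finset.card_union_le _ _)
  linarith

end Pool.Agent.Lib.BL
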