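import Pool.Agent.Lib.BL.Conc
import Pool.Agent.H99.Half

/-!
# Changing the range of a bijection
-/

namespace Pool.Agent.Lib.BL

open Finset

/-- The cost of the `j + 1`-st pair. -/
noncomputable def cst (N : ℕ) (M : ℝ) (j : ℕ) : ℝ :=
  if (2 : ℝ) ^ N ≤ ((j + 1 : ℕ) : ℝ) * M then Real.sqrt (2 * N * Real.log M) else N

theorem sum_cst (N : ℕ) {M : ℝ} (hM : 1 ≤ M) (k : ℕ) :
    ∑ j ∈ range k, cst N M j ≤ k * Real.sqrt (2 * N * Real.log M) + N * (2 ^ N / M) := by
  classical
  have hM0 : 0 < M := by linarith
  have h1 : ∀ j ∈ range k, cst N M j ≤ Real.sqrt (2 * N * Real.log M) +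
      (if ((j + 1 : ℕ) : ℝ) * M < 2 ^ N then (N : ℝ) else 0) := by
    intro j _
    unfold cst
    by_cases h : (2 : ℝ) ^ N ≤ ((j + 1 : ℕ) : ℝ) * M
    · rw [if_pos h, if_neg (not_lt.mpr h)]
      linarith
    · rw [if_neg h, if_pos (not_le.mp h)]
      linarith [Real.sqrt_nonneg (2 * N * Real.log M)]
  refine (Finset.sum_le_sum h1).trans ?_
  rw [Finset.sum_add_distrib, Finset.sum_const, Finset.card_range, nsmul_eq_mul]
  gcongr
  rw [← Finset.sum_filter, Finset.sum_const, nsmul_eq_mul, mul_comm]
  gcongr
  have h2 : (range k).filter (fun j => ((j + 1 : ℕ) : ℝ) * M < 2 ^ N) ⊆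
      range ⌊(2 : ℝ) ^ N / M⌋₊ := by
    intro j hj
    rw [Finset.mem_filter] at hj
    rw [Finset.mem_range]
    have h3 : ((j + 1 : ℕ) : ℝ) ≤ 2 ^ N / M := by
      rw [le_div_iff₀ hM0]
      exact hj.2.le
    have h4 := Nat.le_floor h3
    omega
  have h3 := Finset.card_le_card h2
  rw [Finset.card_range] at h3
  calc (((range k).filter (fun j => ((j + 1 : ℕ) : ℝ) * M < 2 ^ N)).card : ℝ)
      ≤ (⌊(2 : ℝ) ^ N / M⌋₊ : ℝ) := by exact_mod_cast h3
    _ ≤ 2 ^ N / M := Nat.floor_le (by positivity)

theorem exists_matching {N : ℕ} {M : ℝ} (hM : 1 ≤ M) : ∀ (k : ℕ) (S T : Finset (Fin N → Bool)),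
    S.card = k → T.card = k → ∃ π : (Fin N → Bool) → (Fin N → Bool), Set.BijOn π S T ∧
      ∑ x ∈ S, (hammingDist x (π x) : ℝ) ≤ ∑ j ∈ range k, cst N M j := by
  classical
  intro k
  induction k with
  | zero =>
    intro S T hS hT
    rw [Finset.card_eq_zero] at hS hT
    subst hS
    subst hT
    refine ⟨id, ?_, by simp⟩
    simp
  | succ k ih =>
    intro S T hS hT
    obtain ⟨a, ha, b, hb, hab⟩ : ∃ a ∈ S, ∃ b ∈ T, (hammingDist a b : ℝ) ≤ cst N M k := by
      unfold cst
      split_ifs with h
      · exact exists_close hM (by rw [hS]; exact h) (by rw [hT]; exact h)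
      · obtain ⟨a, ha⟩ : S.Nonempty := by
          rw [← Finset.card_pos]
          omega
        obtain ⟨b, hb⟩ : T.Nonempty := by
          rw [← Finset.card_pos]
          omega
        refine ⟨a, ha, b, hb, ?_⟩
        have := hammingDist_le_card_fintype (x := a) (y := b)
        rw [Fintype.card_fin] at this
        exact_mod_cast this
    obtain ⟨π, hπ, hsum⟩ := ih (S.erase a) (T.erase b)
      (by rw [Finset.card_erase_of_mem ha]; omega) (by rw [Finset.card_erase_of_mem hb]; omega)
    refine ⟨Function.update π a b, ?_, ?_⟩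
    · have h1 : Set.BijOn (Function.update π a b) (S.erase a : Finset (Fin N → Bool))
          (T.erase b : Finset (Fin N → Bool)) := by
        apply hπ.congr
        intro x hx
        have hx' : x ≠ a := (Finset.mem_erase.mp (Finset.mem_coe.mp hx)).1
        exact (Function.update_of_ne hx' b π).symm
      have h2 : Set.BijOn (Function.update π a b) {a} {b} := by
        rw [Set.bijOn_singleton]
        exact Function.update_self a b π
      have h3 := h1.union h2 ?_
      · have e1 : ((S.erase a : Finset (Fin N → Bool)) : Set (Fin N → Bool)) ∪ {a} = S := by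
          rw [Finset.coe_erase, Set.sdiff_union_self]
          exact Set.union_eq_left.mpr (by simpa using ha)
        have e2 : ((T.erase b : Finset (Fin N → Bool)) : Set (Fin N → Bool)) ∪ {b} = T := by
          rw [Finset.coe_erase, Set.sdiff_union_self]
          exact Set.union_eq_left.mpr (by simpa using hb)
        rwa [e1, e2] at h3
      · have hdis : Disjoint ((T.erase b : Finset (Fin N → Bool)) : Set (Fin N → Bool)) {b} := by
          rw [Set.disjoint_singleton_right]
          simp
        rintro x (hx | hx) y (hy | hy) hxy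
        · exact h1.injOn hx hy hxy
        · exfalso
          have h4 := h1.mapsTo hx
          have h5 := h2.mapsTo hy
          rw [hxy] at h4
          exact Set.disjoint_left.mp hdis h4 h5
        · exfalso
          have h4 := h1.mapsTo hy
          have h5 := h2.mapsTo hx
          rw [← hxy] at h4
          exact Set.disjoint_left.mp hdis h4 h5
        · exact h2.injOn hx hy hxy
    · rw [← Finset.add_sum_erase S _ ha, Finset.sum_range_succ, add_comm]
      apply add_le_add
      · refine le_of_eq_of_le (Finset.sum_congr rfl fun x hx => ?_) hsum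
        rw [Function.update_of_ne (Finset.mem_erase.mp hx).1]
      · rw [Function.update_self]
        exact hab

theorem exists_matching' {N : ℕ} {M : ℝ} (hM : 1 ≤ M) (S T : Finset (Fin N → Bool))
    (h : S.card = T.card) : ∃ π : (Fin N → Bool) → (Fin N → Bool), Set.BijOn π S T ∧
      ∑ x ∈ S, (hammingDist x (π x) : ℝ) ≤
        S.card * Real.sqrt (2 * N * Real.log M) + N * (2 ^ N / M) := by
  obtain ⟨π, h1, h2⟩ := exists_matching hM S.card S T rfl h.symm
  exact ⟨π, h1, h2.trans (sum_cst N hM _)⟩

/-- Patching a bijection `f : cube → H'` to a bijection `cube → H`. -/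
theorem exists_patched {n : ℕ} {M : ℝ} (hM : 1 ≤ M) (f : (Fin n → Bool) → (Fin (n + 1) → Bool))
    (hf : Function.Injective f) (H H' : Finset (Fin (n + 1) → Bool))
    (hr : Set.range f = (H' : Set (Fin (n + 1) → Bool))) (hc : H.card = H'.card) :
    ∃ g : (Fin n → Bool) → (Fin (n + 1) → Bool), Function.Injective g ∧
      Set.range g = (H : Set (Fin (n + 1) → Bool)) ∧
      ∑ x, ∑ i, (hammingDist (g x) (g (H99.Half.flip x i)) : ℝ) ≤
        ∑ x, ∑ i, (hammingDist (f x) (f (H99.Half.flip x i)) : ℝ) +
        2 * n * ((H' \ H).card * Real.sqrt (2 * (n + 1 : ℕ) * Real.log M) +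
          (n + 1 : ℕ) * (2 ^ (n + 1) / M)) := by
  classical
  have hcard : (H' \ H).card = (H \ H').card := by
    have h1 := Finset.card_sdiff_add_card_inter H' H
    have h2 := Finset.card_sdiff_add_card_inter H H'
    rw [Finset.inter_comm] at h1
    omega
  obtain ⟨π, hπ, hsum⟩ := exists_matching' hM (H' \ H) (H \ H') hcard
  -- the modified map
  set π' : (Fin (n + 1) → Bool) → (Fin (n + 1) → Bool) :=
    fun z => if z ∈ H' \ H then π z else z with hπ'
  have hmaps : ∀ z ∈ H', π' z ∈ H := by
    intro z hz
    by_cases h : z ∈ H' \ H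
    · rw [hπ']
      simp only [if_pos h]
      have := hπ.mapsTo (Finset.mem_coe.mpr h)
      exact (Finset.mem_sdiff.mp (Finset.mem_coe.mp this)).1
    · rw [hπ']
      simp only [if_neg h]
      rw [Finset.mem_sdiff] at h
      tauto
  have hinj : ∀ z ∈ H', ∀ w ∈ H', π' z = π' w → z = w := by
    intro z hz w hw hzw
    by_cases h : z ∈ H' \ H <;> by_cases h' : w ∈ H' \ H
    · rw [hπ'] at hzw
      simp only [if_pos h, if_pos h'] at hzw
      exact hπ.injOn (Finset.mem_coe.mpr h) (Finset.mem_coe.mpr h') hzw
    · rw [hπ'] at hzw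
      simp only [if_pos h, if_neg h'] at hzw
      have := Finset.mem_coe.mp (hπ.mapsTo (Finset.mem_coe.mpr h))
      rw [hzw, Finset.mem_sdiff] at this
      exact absurd hw this.2
    · rw [hπ'] at hzw
      simp only [if_neg h, if_pos h'] at hzw
      have := Finset.mem_coe.mp (hπ.mapsTo (Finset.mem_coe.mpr h'))
      rw [← hzw, Finset.mem_sdiff] at this
      exact absurd hz this.2
    · rw [hπ'] at hzw
      simpa only [if_neg h, if_neg h'] using hzw
  have hfm : ∀ x, f x ∈ H' := fun x => by
    have : f x ∈ Set.range f := ⟨x, rfl⟩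
    rw [hr] at this
    exact Finset.mem_coe.mp this
  have hinjg : Function.Injective (fun x => π' (f x)) := by
    intro x y hxy
    exact hf (hinj _ (hfm x) _ (hfm y) hxy)
  have hcardH' : H'.card = Fintype.card (Fin n → Bool) := by
    rw [← Finset.card_univ, ← Finset.card_image_of_injective univ hf]
    congr 1
    ext z
    have h1 : z ∈ Set.range f ↔ z ∈ H' := by rw [hr]; exact Finset.mem_coe
    rw [← h1]
    simp
  refine ⟨fun x => π' (f x), hinjg, ?_, ?_⟩
  · have h1 : univ.image (fun x => π' (f x)) = H := by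
      apply Finset.eq_of_subset_of_card_le
      · intro z hz
        obtain ⟨x, -, rfl⟩ := Finset.mem_image.mp hz
        exact hmaps _ (hfm x)
      · rw [Finset.card_image_of_injective _ hinjg, Finset.card_univ, hc, hcardH']
    rw [← h1]
    simp
  · set dsp : (Fin n → Bool) → ℝ := fun x => hammingDist (f x) (π' (f x)) with hdsp
    have h1 : ∀ x i, (hammingDist (π' (f x)) (π' (f (H99.Half.flip x i))) : ℝ) ≤
        hammingDist (f x) (f (H99.Half.flip x i)) + (dsp x + dsp (H99.Half.flip x i)) := by
      intro x i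
      have h2 := hammingDist_triangle (π' (f x)) (f x) (π' (f (H99.Half.flip x i)))
      have h3 := hammingDist_triangle (f x) (f (H99.Half.flip x i)) (π' (f (H99.Half.flip x i)))
      rw [hammingDist_comm (π' (f x)) (f x)] at h2
      have h4 : (hammingDist (π' (f x)) (π' (f (H99.Half.flip x i))) : ℝ) ≤
          hammingDist (f x) (π' (f x)) + (hammingDist (f x) (f (H99.Half.flip x i)) +
          hammingDist (f (H99.Half.flip x i)) (π' (f (H99.Half.flip x i)))) := by
        exact_mod_cast h2.trans (Nat.add_le_add_left h3 _)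
      linarith
    have h5 : ∑ x, dsp x ≤ (H' \ H).card * Real.sqrt (2 * (n + 1 : ℕ) * Real.log M) +
          (n + 1 : ℕ) * (2 ^ (n + 1) / M) := by
      have h6 : ∑ x, dsp x = ∑ z ∈ H', (hammingDist z (π' z) : ℝ) := by
        have h7 : H' = univ.image f := by
          ext z
          have h1 : z ∈ Set.range f ↔ z ∈ H' := by rw [hr]; exact Finset.mem_coe
          rw [← h1]
          simp
        rw [h7, Finset.sum_image (fun x _ y _ h => hf h)]
      have h8 : ∑ z ∈ H', (hammingDist z (π' z) : ℝ) =
          ∑ z ∈ H' \ H, (hammingDist z (π z) : ℝ) := by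
        rw [← Finset.sum_subset (Finset.sdiff_subset : H' \ H ⊆ H')]
        · refine Finset.sum_congr rfl fun z hz => ?_
          rw [hπ']
          simp only [if_pos hz]
        · intro z _ hz
          rw [hπ']
          simp only [if_neg hz]
          simp
      rw [h6, h8]
      exact hsum
    calc ∑ x, ∑ i, (hammingDist (π' (f x)) (π' (f (H99.Half.flip x i))) : ℝ)
        ≤ ∑ x, ∑ i, ((hammingDist (f x) (f (H99.Half.flip x i)) : ℝ) +
            (dsp x + dsp (H99.Half.flip x i))) :=
          Finset.sum_le_sum fun x _ => Finset.sum_le_sum fun i _ => h1 x i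
      _ = ∑ x, ∑ i, (hammingDist (f x) (f (H99.Half.flip x i)) : ℝ) +
            ∑ i : Fin n, (∑ x, dsp x + ∑ x, dsp (H99.Half.flip x i)) := by
          simp_rw [Finset.sum_add_distrib]
          congr 2
          · rw [Finset.sum_comm]
          · rw [Finset.sum_comm]
      _ = ∑ x, ∑ i, (hammingDist (f x) (f (H99.Half.flip x i)) : ℝ) + 2 * n * ∑ x, dsp x := by
          congr 1
          have h9 : ∀ i : Fin n, ∑ x, dsp (H99.Half.flip x i) = ∑ x, dsp x :=
            fun i => H99.Half.sum_flip i dsp
          simp_rw [h9]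
          rw [Finset.sum_const, Finset.card_univ, Fintype.card_fin, nsmul_eq_mul]
          ring
      _ ≤ _ := by
          gcongr

end Pool.Agent.Lib.BL
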