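import Mathlib
import Pool.Agent.Lib.BL.Final

/-!
MP_058dd4_co, Q2: average stretch `O(n^{1/6} (log n)^{3/2})` for all balanced halfspaces.

The cube `{-1,1}^m` is coded as `Fin m → Bool` (`true = +1`, `false = -1`).
-/

namespace Pool.Agent.Lib.BL.SixthRoot

open Finset

/-- the balanced halfspace `{x ∈ {-1,1}^m : a_1 x_1 + ... + a_m x_m ≥ 0}` -/
def halfspace {m : ℕ} (a : Fin m → ℝ) : Set (Fin m → Bool) :=
  {x | 0 ≤ ∑ i, a i * (if x i = true then 1 else -1)}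

/-- average stretch of `f : {-1,1}^n → {-1,1}^m`: the mean of `d (f x) (f y)` over the edges `x y`
of the cube (`y` is `x` with the coordinate `i` flipped) -/
noncomputable def avgStretch {n m : ℕ} (f : (Fin n → Bool) → (Fin m → Bool)) : ℝ :=
  (∑ x, ∑ i, (hammingDist (f x) (f (Function.update x i (!(x i)))) : ℝ)) / (2 ^ n * n)

theorem numeric {n : ℕ} (hn : 0 < n) {k J : ℕ} {s L : ℝ} (hs1 : 1 ≤ s)
    (hs : s ^ 6 = (n + 1 : ℕ)) (hL : L = 1 + Real.log (n + 1 : ℕ)) (hk1 : (k : ℝ) ≤ s ^ 4 + 1)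
    (hk2 : s ^ 4 ≤ k) (hJ : (J : ℝ) ≤ 2 * L * s ^ 2 + 1) :
    2 ^ n * (11 * n + 2 * Real.sqrt n * (k + Real.sqrt ((J + 2 : ℕ) * n))) +
        2 * n * (2 ^ (n + 1) * (2 / (n + 1 : ℕ) + 5 * (1 / s ^ 2) * (1 + Real.log (n + 1 : ℕ)) +
          1 / Real.sqrt k) * Real.sqrt (2 * (n + 1 : ℕ) * Real.log ((n + 1 : ℕ) ^ 2)) +
          (n + 1 : ℕ) * (2 ^ (n + 1) / (n + 1 : ℕ) ^ 2)) ≤
      100 * s * (L * Real.sqrt L) * (2 ^ n * n) := by
  have hn' : (0 : ℝ) < n := by exact_mod_cast hn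
  have hn1 : (1 : ℝ) ≤ n := by exact_mod_cast hn
  have hN : ((n + 1 : ℕ) : ℝ) = n + 1 := by push_cast; ring
  have hN1 : (1 : ℝ) ≤ ((n + 1 : ℕ) : ℝ) := by rw [hN]; linarith
  have hlog : 0 ≤ Real.log ((n + 1 : ℕ) : ℝ) := Real.log_nonneg hN1
  have hL1 : 1 ≤ L := by rw [hL]; linarith
  have hs0 : 0 < s := by linarith
  have hL0 : 0 < L := by linarith
  set r := Real.sqrt L with hr
  have hr1 : 1 ≤ r := by
    rw [hr]
    exact Real.one_le_sqrt.mpr hL1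
  have hr2 : r ^ 2 = L := Real.sq_sqrt hL0.le
  -- the quantities
  have hsn : Real.sqrt n ≤ s ^ 3 := by
    apply Real.sqrt_le_iff.mpr
    refine ⟨by positivity, ?_⟩
    rw [← pow_mul, hs, hN]
    linarith
  have hsn2 : s ^ 3 ≤ 2 * Real.sqrt n := by
    have h1 : s ^ 3 ≤ Real.sqrt (4 * n) := by
      apply Real.le_sqrt_of_sq_le
      rw [← pow_mul, hs, hN]
      linarith
    have h2 : Real.sqrt (4 * n) = 2 * Real.sqrt n := by
      rw [Real.sqrt_mul (by norm_num)]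
      congr 1
      rw [show (4 : ℝ) = 2 ^ 2 by norm_num]
      exact Real.sqrt_sq (by norm_num)
    linarith
  have hsqn : Real.sqrt n * Real.sqrt n = n := Real.mul_self_sqrt hn'.le
  have hsn0 : 0 < Real.sqrt n := Real.sqrt_pos.mpr hn'
  -- first term
  have hk3 : (k : ℝ) ≤ 2 * s ^ 4 := by
    have : (1 : ℝ) ≤ s ^ 4 := one_le_pow₀ hs1
    linarith
  have hk4 : Real.sqrt n * k ≤ 4 * s * n := by
    calc Real.sqrt n * k ≤ Real.sqrt n * (2 * s ^ 4) := by gcongr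
      _ = 2 * s * (Real.sqrt n * s ^ 3) := by ring
      _ ≤ 2 * s * (Real.sqrt n * (2 * Real.sqrt n)) := by gcongr
      _ = 4 * s * (Real.sqrt n * Real.sqrt n) := by ring
      _ = 4 * s * n := by rw [hsqn]
  have hJ2 : ((J + 2 : ℕ) : ℝ) ≤ 5 * L * s ^ 2 := by
    push_cast
    have h1 : (1 : ℝ) ≤ s ^ 2 := one_le_pow₀ hs1
    have h2 : (1 : ℝ) ≤ L * s ^ 2 := by nlinarith
    linarith
  have hJ3 : Real.sqrt ((J + 2 : ℕ) * n) ≤ 3 * r * s * Real.sqrt n := by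
    rw [Real.sqrt_mul (by positivity)]
    gcongr
    apply Real.sqrt_le_iff.mpr
    refine ⟨by positivity, ?_⟩
    calc ((J + 2 : ℕ) : ℝ) ≤ 5 * L * s ^ 2 := hJ2
      _ ≤ 9 * L * s ^ 2 := by gcongr; norm_num
      _ = (3 * r * s) ^ 2 := by rw [← hr2]; ring
  have hterm1 : 11 * n + 2 * Real.sqrt n * (k + Real.sqrt ((J + 2 : ℕ) * n)) ≤
      25 * (s * (L * r)) * n := by
    have hLr : 1 ≤ L * r := by nlinarith
    have hsLr : s ≤ s * (L * r) := by nlinarith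
    have hrs : r * s ≤ s * (L * r) := by
      have : r * s * 1 ≤ r * s * L := by gcongr
      linarith
    have h1 : Real.sqrt n * Real.sqrt ((J + 2 : ℕ) * n) ≤ 3 * (s * (L * r)) * n := by
      calc Real.sqrt n * Real.sqrt ((J + 2 : ℕ) * n) ≤ Real.sqrt n * (3 * r * s * Real.sqrt n) := by
            gcongr
        _ = 3 * (r * s) * (Real.sqrt n * Real.sqrt n) := by ring
        _ = 3 * (r * s) * n := by rw [hsqn]
        _ ≤ 3 * (s * (L * r)) * n := by gcongr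
    have h2 : Real.sqrt n * k ≤ 4 * (s * (L * r)) * n := by
      calc Real.sqrt n * k ≤ 4 * s * n := hk4
        _ ≤ 4 * (s * (L * r)) * n := by gcongr
    have h3 : 11 * (n : ℝ) ≤ 11 * (s * (L * r)) * n := by
      have : 1 ≤ s * (L * r) := by linarith
      nlinarith
    nlinarith
  -- second term
  have hk0 : (0 : ℝ) < k := lt_of_lt_of_le (by positivity) hk2
  have hsk : 1 / Real.sqrt k ≤ 1 / s ^ 2 := by
    apply one_div_le_one_div_of_le (by positivity)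
    apply Real.le_sqrt_of_sq_le
    rw [← pow_mul]
    exact hk2
  have h2N : 2 / ((n + 1 : ℕ) : ℝ) ≤ 2 * (1 / s ^ 2) := by
    rw [← hs, mul_one_div]
    apply div_le_div_of_nonneg_left (by norm_num) (by positivity)
    exact pow_le_pow_right₀ hs1 (by norm_num)
  have hδ : 2 / ((n + 1 : ℕ) : ℝ) + 5 * (1 / s ^ 2) * (1 + Real.log (n + 1 : ℕ)) +
      1 / Real.sqrt k ≤ 8 * L * (1 / s ^ 2) := by
    rw [← hL]
    have h1 : 1 / s ^ 2 ≤ L * (1 / s ^ 2) := by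
      have : 0 < 1 / s ^ 2 := by positivity
      nlinarith
    nlinarith
  have hR : Real.sqrt (2 * (n + 1 : ℕ) * Real.log ((n + 1 : ℕ) ^ 2)) ≤ 2 * s ^ 3 * r := by
    apply Real.sqrt_le_iff.mpr
    refine ⟨by positivity, ?_⟩
    rw [Real.log_pow]
    push_cast
    have h1 : Real.log ((n : ℝ) + 1) ≤ L := by
      rw [hL, hN]
      linarith
    have h2 : (2 * s ^ 3 * r) ^ 2 = 4 * (s ^ 6) * (r ^ 2) := by ring
    rw [h2, hs, hr2, hN]
    have h3 : (0 : ℝ) ≤ n + 1 := by linarith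
    calc 2 * ((n : ℝ) + 1) * (2 * Real.log (n + 1)) = 4 * (n + 1) * Real.log (n + 1) := by ring
      _ ≤ 4 * (n + 1) * L := by gcongr
  have hlast : ((n + 1 : ℕ) : ℝ) * (2 ^ (n + 1) / ((n + 1 : ℕ) : ℝ) ^ 2) ≤ 2 ^ (n + 1) := by
    have hN0 : (0 : ℝ) < ((n + 1 : ℕ) : ℝ) := by linarith
    have : ((n + 1 : ℕ) : ℝ) * (2 ^ (n + 1) / ((n + 1 : ℕ) : ℝ) ^ 2) =
        2 ^ (n + 1) / ((n + 1 : ℕ) : ℝ) := by
      field_simp
    rw [this]
    exact div_le_self (by positivity) hN1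
  have hterm2 : 2 ^ (n + 1) * (2 / ((n + 1 : ℕ) : ℝ) + 5 * (1 / s ^ 2) *
      (1 + Real.log (n + 1 : ℕ)) + 1 / Real.sqrt k) *
      Real.sqrt (2 * (n + 1 : ℕ) * Real.log ((n + 1 : ℕ) ^ 2)) ≤
      2 ^ (n + 1) * (16 * (s * (L * r))) := by
    calc 2 ^ (n + 1) * (2 / ((n + 1 : ℕ) : ℝ) + 5 * (1 / s ^ 2) *
        (1 + Real.log (n + 1 : ℕ)) + 1 / Real.sqrt k) *
        Real.sqrt (2 * (n + 1 : ℕ) * Real.log ((n + 1 : ℕ) ^ 2)) ≤
        2 ^ (n + 1) * (8 * L * (1 / s ^ 2)) * (2 * s ^ 3 * r) := by gcongr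
      _ = 2 ^ (n + 1) * (16 * (s * (L * r))) := by
          field_simp
          ring
  have h2n : (0 : ℝ) < 2 ^ n := by positivity
  have hsLr : 1 ≤ s * (L * r) := by
    have : 1 ≤ L * r := by nlinarith
    nlinarith
  calc 2 ^ n * (11 * n + 2 * Real.sqrt n * (k + Real.sqrt ((J + 2 : ℕ) * n))) +
        2 * n * (2 ^ (n + 1) * (2 / (n + 1 : ℕ) + 5 * (1 / s ^ 2) * (1 + Real.log (n + 1 : ℕ)) +
          1 / Real.sqrt k) * Real.sqrt (2 * (n + 1 : ℕ) * Real.log ((n + 1 : ℕ) ^ 2)) +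
          (n + 1 : ℕ) * (2 ^ (n + 1) / (n + 1 : ℕ) ^ 2))
      ≤ 2 ^ n * (25 * (s * (L * r)) * n) +
        2 * n * (2 ^ (n + 1) * (16 * (s * (L * r))) + 2 ^ (n + 1)) := by gcongr
    _ ≤ 2 ^ n * (25 * (s * (L * r)) * n) +
        2 * n * (2 ^ (n + 1) * (16 * (s * (L * r))) + 2 ^ (n + 1) * (s * (L * r))) := by
        gcongr
        exact le_mul_of_one_le_right (by positivity) hsLr
    _ = 93 * (s * (L * r)) * (2 ^ n * n) := by
        rw [pow_succ]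
        ring
    _ ≤ 100 * (s * (L * r)) * (2 ^ n * n) := by gcongr; norm_num
    _ = _ := by ring

/-- Every balanced halfspace of size `2 ^ n` in the cube of dimension `n + 1` is the image of the
cube of dimension `n` under a bijection with average stretch at most
`100 (n+1)^{1/6} (1 + log (n+1))^{3/2}`. -/
theorem result (n : ℕ) (a : Fin (n + 1) → ℝ) (ha : (halfspace a).ncard = 2 ^ n) :
    ∃ f : (Fin n → Bool) → (Fin (n + 1) → Bool), Set.BijOn f Set.univ (halfspace a) ∧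
      avgStretch f ≤
        100 * ((n : ℝ) + 1) ^ (1 / 6 : ℝ) * (1 + Real.log ((n : ℝ) + 1)) ^ (3 / 2 : ℝ) := by
  classical
  have hH : halfspace a = {y | 0 ≤ ∑ i, a i * H99.Bracket.sg (y i)} := rfl
  rw [hH] at ha
  have hN1 : (1 : ℝ) ≤ ((n + 1 : ℕ) : ℝ) := by
    push_cast
    linarith [Nat.cast_nonneg (α := ℝ) n]
  have hN0 : (0 : ℝ) < ((n + 1 : ℕ) : ℝ) := by linarith
  set s : ℝ := ((n + 1 : ℕ) : ℝ) ^ (1 / 6 : ℝ) with hs
  have hs1 : 1 ≤ s := Real.one_le_rpow hN1 (by norm_num)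
  have hs0 : 0 < s := by linarith
  have hs6 : s ^ 6 = ((n + 1 : ℕ) : ℝ) := by
    rw [hs, ← Real.rpow_natCast, ← Real.rpow_mul hN0.le]
    norm_num
  set L : ℝ := 1 + Real.log (n + 1 : ℕ) with hL
  have hlog : 0 ≤ Real.log ((n + 1 : ℕ) : ℝ) := Real.log_nonneg hN1
  have hL1 : 1 ≤ L := by rw [hL]; linarith
  -- the parameters
  have hk0 : 0 < ⌈s ^ 4⌉₊ := Nat.ceil_pos.mpr (by positivity)
  have hkN : ⌈s ^ 4⌉₊ ≤ n + 1 := by
    rw [Nat.ceil_le, ← hs6]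
    exact pow_le_pow_right₀ hs1 (by norm_num)
  have hε : 0 < 1 / s ^ 2 := by positivity
  have hε1 : 1 / s ^ 2 ≤ 1 := by
    rw [div_le_one (by positivity)]
    exact one_le_pow₀ hs1
  have hεN : 1 ≤ (1 / s ^ 2) ^ 2 * ((n + 1 : ℕ) : ℝ) := by
    rw [← hs6]
    have : (1 / s ^ 2) ^ 2 * s ^ 6 = s ^ 2 := by
      field_simp
    rw [this]
    exact one_le_pow₀ hs1
  have hJ : 2 * Real.log (n + 1 : ℕ) / (1 / s ^ 2) ≤ (⌈2 * Real.log (n + 1 : ℕ) * s ^ 2⌉₊ : ℕ) := by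
    rw [div_div_eq_mul_div, div_one]
    exact Nat.le_ceil _
  obtain ⟨g, hg1, hg2, hg3⟩ := Lib.BL.main_bound a ha hk0 hkN hε hε1 hεN hJ
  refine ⟨g, ⟨?_, hg1.injOn, ?_⟩, ?_⟩
  · intro x _
    rw [hH, ← hg2]
    exact Set.mem_range_self x
  · rw [hH, ← hg2]
    rintro _ ⟨x, rfl⟩
    exact ⟨x, Set.mem_univ _, rfl⟩
  · have hfin : 100 * ((n : ℝ) + 1) ^ (1 / 6 : ℝ) * (1 + Real.log ((n : ℝ) + 1)) ^ (3 / 2 : ℝ) =
        100 * s * (L * Real.sqrt L) := by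
      have e1 : (n : ℝ) + 1 = ((n + 1 : ℕ) : ℝ) := by push_cast; ring
      rw [e1, ← hs, ← hL, show (3 / 2 : ℝ) = 1 + 1 / 2 by norm_num,
        Real.rpow_add (by linarith), Real.rpow_one, ← Real.sqrt_eq_rpow]
    rw [hfin]
    unfold avgStretch
    rcases Nat.eq_zero_or_pos n with rfl | hn
    · simp
      positivity
    have hn' : (0 : ℝ) < n := by exact_mod_cast hn
    rw [div_le_iff₀ (by positivity)]
    refine hg3.trans (numeric hn hs1 hs6 hL ?_ (Nat.le_ceil _) ?_)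
    · exact (Nat.ceil_lt_add_one (by positivity)).le
    · refine (Nat.ceil_lt_add_one (by positivity)).le.trans ?_
      have : Real.log ((n + 1 : ℕ) : ℝ) ≤ L := by rw [hL]; linarith
      gcongr

end Pool.Agent.Lib.BL.SixthRoot
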